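import Pool.Agent.Lib.MP_688fd0_co.MET.H20.Main
import Pool.Agent.Lib.MP_688fd0_co.ASY.H91.Sch

/-!
Assembly with Schreier graphs of subgroups.
-/

set_option autoImplicit false

namespace Pool.Agent.Lib.MP_688fd0_co.MET.H20

open Classical
open Pool.Agent.Lib.MP_688fd0_co.LP (Cyc)
open Pool.Agent.Lib.MP_688fd0_co.LPV (cayS)
open Pool.Agent.Lib.MP_688fd0_co.LIN
open Pool.Agent.Lib.MP_688fd0_co.ASY

universe u

/-- (1 - eps)n from an action of a subgroup with long cycles. -/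
theorem asym_sch (ε : ℝ) (hε : 0 < ε) (hε1 : ε < 1) : ∃ C : ℕ, ∀ (Γ : Type u) [Group Γ] [Fintype Γ] (A : Set Γ),
    (∀ x ∈ A, x⁻¹ ∈ A) → Subgroup.closure A = ⊤ →
    (∃ (K : Subgroup Γ) (X : Type u) (_ : Fintype X) (_ : MulAction K X) (σ : Equiv.Perm X),
      Nonempty X ∧ MulAction.IsPretransitive K X ∧ (∀ x, σ x ≠ x → ∃ a : K, (a : Γ) ∈ A ∧ σ x = a • x) ∧
      (∀ x, σ x ≠ x → ∀ i, 0 < i → i < C → (σ ^ i) x ≠ x) ∧
      (1 - ε / 2) * (Fintype.card X : ℝ) ≤ Nat.card {x // σ x ≠ x}) →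
    ∃ cy, Cyc (cayS A) cy ∧ (1 - ε) * (Fintype.card Γ : ℝ) ≤ cy.length := by
  obtain ⟨C1, hC1⟩ := tube_t2vu.{u} (ε / 2) (by positivity) (by linarith)
  refine ⟨max C1 3, ?_⟩
  intro Γ _ _ A hA hgen h
  obtain ⟨K, X, _, _, σ, hX, htr, h1, h2, h3⟩ := h
  obtain ⟨F, hF1, hF2, hF3⟩ := H91.sch_lift A hA K σ h1 (max C1 3) (le_max_right _ _) h2
  have hXR : (0 : ℝ) < Fintype.card X := by exact_mod_cast Fintype.card_pos
  have hm : ((Finset.univ.filter (fun x => σ x ≠ x)).card : ℝ) = Nat.card {x // σ x ≠ x} := by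
    rw [Nat.card_eq_fintype_card, Fintype.card_subtype]
  have hF4 : (Fintype.card Γ : ℝ) * (Finset.univ.filter (fun x => σ x ≠ x)).card ≤
      Fintype.card X * ∑ c ∈ F, (c.length : ℝ) := by exact_mod_cast hF3
  have h5 : (0 : ℝ) ≤ Fintype.card Γ := Nat.cast_nonneg _
  obtain ⟨cy, hcy, hl⟩ := hC1 Γ (cayS A) (H18.vt_cayS hA hgen) ⟨F, fun c hc =>
    ⟨(hF1 c hc).1, (le_max_left _ _).trans (hF1 c hc).2⟩, hF2, by
      have h6 : (Fintype.card Γ : ℝ) * ((1 - ε / 2) * (Fintype.card X : ℝ)) ≤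
          Fintype.card X * ∑ c ∈ F, (c.length : ℝ) := by
        refine le_trans ?_ hF4
        rw [hm]
        exact mul_le_mul_of_nonneg_left h3 h5
      have h7 : (Fintype.card X : ℝ) * ((1 - ε / 2) * (Fintype.card Γ : ℝ)) ≤
          Fintype.card X * ∑ c ∈ F, (c.length : ℝ) := by linarith
      exact le_of_mul_le_mul_left h7 hXR⟩
  refine ⟨cy, hcy, le_trans (le_of_eq ?_) hl⟩
  ring

/-- large degree, large metabelian section, or action with long cycles -/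
theorem asym3 (ε : ℝ) (hε : 0 < ε) (hε1 : ε < 1) : ∃ C : ℕ, ∀ (Γ : Type u) [Group Γ] [Fintype Γ] (A : Set Γ),
    (∀ x ∈ A, x⁻¹ ∈ A) → Subgroup.closure A = ⊤ →
    (C ≤ Nat.card A ∨ (∃ B ⊆ A, C ≤ (derivedSeries (Subgroup.closure B) 2).index) ∨
    ∃ (K : Subgroup Γ) (X : Type u) (_ : Fintype X) (_ : MulAction K X) (σ : Equiv.Perm X),
      Nonempty X ∧ MulAction.IsPretransitive K X ∧ (∀ x, σ x ≠ x → ∃ a : K, (a : Γ) ∈ A ∧ σ x = a • x) ∧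
      (∀ x, σ x ≠ x → ∀ i, 0 < i → i < C → (σ ^ i) x ≠ x) ∧
      (1 - ε / 2) * (Fintype.card X : ℝ) ≤ Nat.card {x // σ x ≠ x}) →
    ∃ cy, Cyc (cayS A) cy ∧ (1 - ε) * (Fintype.card Γ : ℝ) ≤ cy.length := by
  obtain ⟨C1, hC1⟩ := asym.{u} ε hε
  obtain ⟨C2, hC2⟩ := asym_sch.{u} ε hε hε1
  refine ⟨max C1 C2, ?_⟩
  intro Γ _ _ A hA hgen h
  rcases h with h | ⟨B, hB, h⟩ | ⟨K, X, i1, i2, σ, hX, htr, h1, h2, h3⟩
  · exact hC1 Γ A hA hgen (Or.inl ((le_max_left _ _).trans h))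
  · exact hC1 Γ A hA hgen (Or.inr ⟨B, hB, (le_max_left _ _).trans h⟩)
  · exact hC2 Γ A hA hgen ⟨K, X, i1, i2, σ, hX, htr, h1,
      fun x hx i hi hiC => h2 x hx i hi (lt_of_lt_of_le hiC (le_max_right _ _)), h3⟩

end Pool.Agent.Lib.MP_688fd0_co.MET.H20
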