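import Pool.Agent.Lib.MP_688fd0_co.MET.H20.Walk

/-!
Closed walks in a grid: two rows, three rows, one row.
-/

set_option autoImplicit false

namespace Pool.Agent.Lib.MP_688fd0_co.MET.H20

open Classical

section
variable {G : Type*} [Group G]

/-- coordinates of a group generated by `a`, `b` modulo a subgroup containing the commutators -/
structure Grid (a b : G) (r s : ℕ) (I J : G → ℕ) : Prop where
  lt1 : ∀ x, I x < r
  lt2 : ∀ x, J x < s
  ra : ∀ x, I x + 1 < r → I (x * a) = I x + 1 ∧ J (x * a) = J x
  ra0 : ∀ x, I x + 1 = r → I (x * a) = 0 ∧ J (x * a) = J x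
  la : ∀ x, 0 < I x → I (x * a⁻¹) = I x - 1 ∧ J (x * a⁻¹) = J x
  ub : ∀ x, J x + 1 < s → I (x * b) = I x ∧ J (x * b) = J x + 1
  lb : ∀ x, 0 < J x → I (x * b⁻¹) = I x ∧ J (x * b⁻¹) = J x - 1

/-- closed walks given by letters -/
theorem walks' [Finite G] {S : Set G} {L : ℕ} {ι : Type*} (κ : G → ι) (t : G → ℕ) (ℓ : ι → ℕ) (p : ι → ℕ → G)
    (s : ι → ℕ → G) (hlt : ∀ x, t x < ℓ (κ x)) (hp0 : ∀ k, p k 0 = 1)
    (hstep : ∀ k t, t < ℓ k → p k (t + 1) = p k t * s k t)
    (hx : ∀ x, κ (x * s (κ x) (t x)) = κ x ∧ t (x * s (κ x) (t x)) = (t x + 1) % ℓ (κ x))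
    (hS : ∀ k t, t < ℓ k → s k t ∈ S) (hL : ∀ k, L ≤ orderOf (p k (ℓ k))) : LongPerm S L := by
  have h1 : ∀ x, x * (p (κ x) (t x))⁻¹ * p (κ x) (t x + 1) = x * s (κ x) (t x) := by
    intro x
    rw [hstep _ _ (hlt x), mul_assoc, inv_mul_cancel_left]
  refine walks κ t ℓ p hlt hp0 ?_ ?_ ?_ hL
  · intro x; rw [h1 x]; exact (hx x).1
  · intro x; rw [h1 x]; exact (hx x).2
  · intro k t ht
    rw [hstep k t ht, inv_mul_cancel_left]
    exact hS k t ht

/-- letters of the walk around two rows (`n + 1` columns) -/
def s2 (a b : G) (n t : ℕ) : G := if t < n then a else if t = n then b else if t < 2 * n + 1 then a⁻¹ else b⁻¹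

/-- positions of the walk around two rows -/
def p2 (a b : G) (n t : ℕ) : G :=
  if t ≤ n then a ^ t else if t ≤ 2 * n + 1 then a ^ n * b * (a ^ (t - (n + 1)))⁻¹
  else a ^ n * b * (a ^ n)⁻¹ * b⁻¹

theorem p2_step (a b : G) (n t : ℕ) (ht : t < 2 * n + 2) : p2 a b n (t + 1) = p2 a b n t * s2 a b n t := by
  unfold p2 s2
  by_cases h1 : t < n
  · rw [if_pos (by omega : t + 1 ≤ n), if_pos h1.le, if_pos h1, pow_succ]
  by_cases h2 : t = n
  · subst h2
    rw [if_neg (by omega), if_pos (by omega), if_pos le_rfl, if_neg (by omega), if_pos rfl]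
    simp
  by_cases h3 : t < 2 * n + 1
  · rw [if_neg (by omega), if_pos (by omega), if_neg (by omega), if_pos (by omega), if_neg h1, if_neg h2, if_pos h3]
    have h4 : t + 1 - (n + 1) = (t - (n + 1)) + 1 := by omega
    rw [h4, pow_succ', mul_inv_rev, ← mul_assoc]
  · have h4 : t = 2 * n + 1 := by omega
    subst h4
    rw [if_neg (by omega), if_neg (by omega), if_neg (by omega), if_pos le_rfl, if_neg h1, if_neg h2, if_neg h3]
    have h5 : 2 * n + 1 - (n + 1) = n := by omega
    rw [h5]

/-- letters of the walk around three rows -/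
def s3 (a b : G) (n t : ℕ) : G :=
  if t < n then a else if t = n then b else if t < 2 * n then a⁻¹ else if t = 2 * n then b
  else if t < 3 * n + 1 then a else b⁻¹

/-- positions of the walk around three rows -/
def p3 (a b : G) (n t : ℕ) : G :=
  if t ≤ n then a ^ t else if t ≤ 2 * n then a ^ n * b * (a ^ (t - (n + 1)))⁻¹
  else if t ≤ 3 * n + 1 then a ^ n * b * (a ^ (n - 1))⁻¹ * b * a ^ (t - (2 * n + 1))
  else if t = 3 * n + 2 then a ^ n * b * (a ^ (n - 1))⁻¹ * b * a ^ n * b⁻¹
  else a ^ n * b * (a ^ (n - 1))⁻¹ * b * a ^ n * b⁻¹ * b⁻¹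

theorem p3_step (a b : G) (n t : ℕ) (hn : 1 ≤ n) (ht : t < 3 * n + 3) :
    p3 a b n (t + 1) = p3 a b n t * s3 a b n t := by
  unfold p3 s3
  by_cases h1 : t < n
  · rw [if_pos (by omega : t + 1 ≤ n), if_pos h1.le, if_pos h1, pow_succ]
  by_cases h2 : t = n
  · subst h2
    rw [if_neg (by omega), if_pos (by omega), if_pos le_rfl, if_neg (by omega), if_pos rfl]
    simp
  by_cases h3 : t < 2 * n
  · rw [if_neg (by omega), if_pos (by omega), if_neg (by omega), if_pos (by omega), if_neg h1, if_neg h2, if_pos h3]
    have h4 : t + 1 - (n + 1) = (t - (n + 1)) + 1 := by omega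
    rw [h4, pow_succ', mul_inv_rev, ← mul_assoc]
  by_cases h4 : t = 2 * n
  · subst h4
    rw [if_neg (by omega), if_neg (by omega), if_pos (by omega), if_neg (by omega), if_pos le_rfl, if_neg h1,
      if_neg h2, if_neg h3, if_pos rfl]
    have h5 : 2 * n - (n + 1) = n - 1 := by omega
    rw [h5]
    simp
  by_cases h5 : t < 3 * n + 1
  · rw [if_neg (by omega), if_neg (by omega), if_pos (by omega), if_neg (by omega), if_neg (by omega),
      if_pos (by omega), if_neg h1, if_neg h2, if_neg h3, if_neg h4, if_pos h5]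
    have h6 : t + 1 - (2 * n + 1) = (t - (2 * n + 1)) + 1 := by omega
    rw [h6, pow_succ, ← mul_assoc]
  by_cases h6 : t = 3 * n + 1
  · subst h6
    rw [if_neg (by omega), if_neg (by omega), if_neg (by omega), if_pos (by omega), if_neg (by omega),
      if_neg (by omega), if_pos le_rfl, if_neg h1, if_neg h2, if_neg h3, if_neg h4, if_neg h5]
    have h7 : 3 * n + 1 - (2 * n + 1) = n := by omega
    rw [h7]
  · have h7 : t = 3 * n + 2 := by omega
    subst h7
    rw [if_neg (by omega), if_neg (by omega), if_neg (by omega), if_neg (by omega), if_neg (by omega),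
      if_neg (by omega), if_neg (by omega), if_pos rfl, if_neg h1, if_neg h2, if_neg h3, if_neg h4, if_neg h5]

/-- an even number of rows -/
theorem blocks_even [Finite G] {a b : G} {r s : ℕ} {I J : G → ℕ} (h : Grid a b r s I J) (hs : Even s) (L : ℕ)
    (hL : L ≤ orderOf (a ^ (r - 1) * b * (a ^ (r - 1))⁻¹ * b⁻¹)) : LongPerm {a, a⁻¹, b, b⁻¹} L := by
  obtain ⟨n, hn⟩ : ∃ n, r = n + 1 := ⟨r - 1, by have := h.lt1 1; omega⟩
  subst hn
  rw [Nat.add_sub_cancel] at hL
  obtain ⟨q, hq⟩ := hs
  refine walks' (fun x => J x / 2) (fun x => if J x % 2 = 0 then I x else 2 * n + 1 - I x) (fun _ => 2 * n + 2)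
    (fun _ t => p2 a b n t) (fun _ t => s2 a b n t) ?_ ?_ ?_ ?_ ?_ ?_
  · intro x
    have := h.lt1 x
    split_ifs <;> omega
  · intro _
    simp [p2]
  · intro _ t ht
    exact p2_step a b n t ht
  · intro x
    have h1 := h.lt1 x
    have h2 := h.lt2 x
    by_cases hJ : J x % 2 = 0
    · rw [if_pos hJ]
      by_cases hI : I x < n
      · have hl : s2 a b n (I x) = a := by unfold s2; rw [if_pos hI]
        obtain ⟨h3, h4⟩ := h.ra x (by omega)
        rw [hl, h3, h4, if_pos hJ, Nat.mod_eq_of_lt (by omega)]
        exact ⟨rfl, rfl⟩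
      · have hI' : I x = n := by omega
        have hl : s2 a b n (I x) = b := by unfold s2; rw [if_neg (by omega), if_pos hI']
        obtain ⟨h3, h4⟩ := h.ub x (by omega)
        rw [hl, h3, h4, if_neg (by omega), Nat.mod_eq_of_lt (by omega)]
        omega
    · rw [if_neg hJ]
      by_cases hI : 0 < I x
      · have hl : s2 a b n (2 * n + 1 - I x) = a⁻¹ := by
          unfold s2; rw [if_neg (by omega), if_neg (by omega), if_pos (by omega)]
        obtain ⟨h3, h4⟩ := h.la x hI
        rw [hl, h3, h4, if_neg hJ, Nat.mod_eq_of_lt (by omega)]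
        omega
      · have hI' : I x = 0 := by omega
        have hl : s2 a b n (2 * n + 1 - I x) = b⁻¹ := by
          unfold s2; rw [if_neg (by omega), if_neg (by omega), if_neg (by omega)]
        obtain ⟨h3, h4⟩ := h.lb x (by omega)
        have h5 : 2 * n + 1 - I x + 1 = 2 * n + 2 := by omega
        rw [hl, h3, h4, if_pos (by omega), h5, Nat.mod_self]
        omega
  · intro _ t _
    simp only [s2]
    split_ifs <;> simp
  · intro _
    have : p2 a b n (2 * n + 2) = a ^ n * b * (a ^ n)⁻¹ * b⁻¹ := by
      unfold p2; rw [if_neg (by omega), if_neg (by omega)]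
    simp only [this]
    exact hL

/-- an odd number of rows, at least three -/
theorem blocks_odd [Finite G] {a b : G} {r s : ℕ} {I J : G → ℕ} (h : Grid a b r s I J) (hs : Odd s) (hs3 : 3 ≤ s)
    (hr : 2 ≤ r) (L : ℕ) (hL : L ≤ orderOf (a ^ (r - 1) * b * (a ^ (r - 1))⁻¹ * b⁻¹))
    (hL' : L ≤ orderOf (a ^ (r - 1) * b * (a ^ (r - 1 - 1))⁻¹ * b * a ^ (r - 1) * b⁻¹ * b⁻¹)) :
    LongPerm {a, a⁻¹, b, b⁻¹} L := by
  obtain ⟨n, hn⟩ : ∃ n, r = n + 1 := ⟨r - 1, by omega⟩
  subst hn
  rw [Nat.add_sub_cancel] at hL hL'
  obtain ⟨q, hq⟩ := hs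
  refine walks' (fun x => if J x < 3 then 0 else (J x + 1) / 2)
    (fun x => if J x < 3 then (if J x = 0 then I x else if J x = 1 then (if I x = 0 then 3 * n + 2 else
      2 * n + 1 - I x) else (if I x = 0 then 3 * n + 1 else 2 * n + I x))
      else (if J x % 2 = 1 then I x else 2 * n + 1 - I x))
    (fun k => if k = 0 then 3 * n + 3 else 2 * n + 2)
    (fun k t => if k = 0 then p3 a b n t else p2 a b n t) (fun k t => if k = 0 then s3 a b n t else s2 a b n t)
    ?_ ?_ ?_ ?_ ?_ ?_
  · intro x
    have := h.lt1 x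
    by_cases h3 : J x < 3
    · simp only [if_pos h3, if_true]
      split_ifs <;> omega
    · have h4 : (J x + 1) / 2 ≠ 0 := by omega
      simp only [if_neg h3, if_neg h4]
      split_ifs <;> omega
  · intro k
    by_cases hk : k = 0
    · simp [hk, p3]
    · simp [hk, p2]
  · intro k t ht
    by_cases hk : k = 0
    · simp only [if_pos hk] at ht ⊢
      exact p3_step a b n t (by omega) ht
    · simp only [if_neg hk] at ht ⊢
      exact p2_step a b n t ht
  · intro x
    have h1 := h.lt1 x
    have h2 := h.lt2 x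
    by_cases hJ3 : J x < 3
    · simp only [if_pos hJ3, if_true]
      by_cases hJ0 : J x = 0
      · rw [if_pos hJ0]
        by_cases hI : I x < n
        · have hl : s3 a b n (I x) = a := by unfold s3; rw [if_pos hI]
          obtain ⟨h3, h4⟩ := h.ra x (by omega)
          rw [hl, h3, h4, if_pos hJ3, if_pos hJ3, if_pos hJ0, Nat.mod_eq_of_lt (by omega)]
          exact ⟨rfl, rfl⟩
        · have hI' : I x = n := by omega
          have hl : s3 a b n (I x) = b := by unfold s3; rw [if_neg (by omega), if_pos hI']
          obtain ⟨h3, h4⟩ := h.ub x (by omega)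
          rw [hl, h3, h4, if_pos (by omega), if_pos (by omega), if_neg (by omega), if_pos (by omega),
            if_neg (by omega), Nat.mod_eq_of_lt (by omega)]
          omega
      · rw [if_neg hJ0]
        by_cases hJ1 : J x = 1
        · rw [if_pos hJ1]
          by_cases hI : I x = 0
          · rw [if_pos hI]
            have hl : s3 a b n (3 * n + 2) = b⁻¹ := by
              unfold s3
              rw [if_neg (by omega), if_neg (by omega), if_neg (by omega), if_neg (by omega), if_neg (by omega)]
            obtain ⟨h3, h4⟩ := h.lb x (by omega)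
            rw [hl, h3, h4, if_pos (by omega), if_pos (by omega), if_pos (by omega), Nat.mod_self]
            omega
          · rw [if_neg hI]
            by_cases hI1 : I x = 1
            · have hl : s3 a b n (2 * n + 1 - I x) = b := by
                unfold s3
                rw [if_neg (by omega), if_neg (by omega), if_neg (by omega), if_pos (by omega)]
              obtain ⟨h3, h4⟩ := h.ub x (by omega)
              rw [hl, h3, h4, if_pos (by omega), if_pos (by omega), if_neg (by omega), if_neg (by omega),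
                if_neg (by omega), Nat.mod_eq_of_lt (by omega)]
              omega
            · by_cases hI2 : n < 2
              · omega
              have hl : s3 a b n (2 * n + 1 - I x) = a⁻¹ := by
                unfold s3
                rw [if_neg (by omega), if_neg (by omega), if_pos (by omega)]
              obtain ⟨h3, h4⟩ := h.la x (by omega)
              rw [hl, h3, h4, if_pos (by omega), if_pos (by omega), if_neg (by omega), if_pos (by omega),
                if_neg (by omega), Nat.mod_eq_of_lt (by omega)]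
              omega
        · rw [if_neg hJ1]
          by_cases hI : I x = 0
          · rw [if_pos hI]
            have hl : s3 a b n (3 * n + 1) = b⁻¹ := by
              unfold s3
              rw [if_neg (by omega), if_neg (by omega), if_neg (by omega), if_neg (by omega), if_neg (by omega)]
            obtain ⟨h3, h4⟩ := h.lb x (by omega)
            rw [hl, h3, h4, if_pos (by omega), if_pos (by omega), if_neg (by omega), if_pos (by omega),
              if_pos (by omega), Nat.mod_eq_of_lt (by omega)]
            omega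
          · rw [if_neg hI]
            have hl : s3 a b n (2 * n + I x) = a := by
              unfold s3
              rw [if_neg (by omega), if_neg (by omega), if_neg (by omega), if_neg (by omega), if_pos (by omega)]
            by_cases hIn : I x + 1 < n + 1
            · obtain ⟨h3, h4⟩ := h.ra x hIn
              rw [hl, h3, h4, if_pos hJ3, if_pos hJ3, if_neg hJ0, if_neg hJ1, if_neg (by omega),
                Nat.mod_eq_of_lt (by omega)]
              omega
            · obtain ⟨h3, h4⟩ := h.ra0 x (by omega)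
              rw [hl, h3, h4, if_pos hJ3, if_pos hJ3, if_neg hJ0, if_neg hJ1, if_pos (by omega),
                Nat.mod_eq_of_lt (by omega)]
              omega
    · have h4 : (J x + 1) / 2 ≠ 0 := by omega
      simp only [if_neg hJ3, if_neg h4]
      by_cases hJ : J x % 2 = 1
      · rw [if_pos hJ]
        by_cases hI : I x < n
        · have hl : s2 a b n (I x) = a := by unfold s2; rw [if_pos hI]
          obtain ⟨h3, h4⟩ := h.ra x (by omega)
          rw [hl, h3, h4, if_neg (by omega), if_neg (by omega), if_pos hJ, Nat.mod_eq_of_lt (by omega)]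
          exact ⟨rfl, rfl⟩
        · have hI' : I x = n := by omega
          have hl : s2 a b n (I x) = b := by unfold s2; rw [if_neg (by omega), if_pos hI']
          obtain ⟨h3, h4⟩ := h.ub x (by omega)
          rw [hl, h3, h4, if_neg (by omega), if_neg (by omega), if_neg (by omega), Nat.mod_eq_of_lt (by omega)]
          omega
      · rw [if_neg hJ]
        by_cases hI : 0 < I x
        · have hl : s2 a b n (2 * n + 1 - I x) = a⁻¹ := by
            unfold s2; rw [if_neg (by omega), if_neg (by omega), if_pos (by omega)]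
          obtain ⟨h3, h4⟩ := h.la x hI
          rw [hl, h3, h4, if_neg (by omega), if_neg (by omega), if_neg hJ, Nat.mod_eq_of_lt (by omega)]
          omega
        · have hI' : I x = 0 := by omega
          have hl : s2 a b n (2 * n + 1 - I x) = b⁻¹ := by
            unfold s2; rw [if_neg (by omega), if_neg (by omega), if_neg (by omega)]
          obtain ⟨h3, h4⟩ := h.lb x (by omega)
          have h5 : 2 * n + 1 - I x + 1 = 2 * n + 2 := by omega
          rw [hl, h3, h4, if_neg (by omega), if_neg (by omega), if_pos (by omega), h5, Nat.mod_self]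
          omega
  · intro k t _
    simp only [s2, s3]
    split_ifs <;> simp
  · intro k
    by_cases hk : k = 0
    · have h1 : p3 a b n (3 * n + 3) = a ^ n * b * (a ^ (n - 1))⁻¹ * b * a ^ n * b⁻¹ * b⁻¹ := by
        unfold p3
        rw [if_neg (by omega), if_neg (by omega), if_neg (by omega), if_neg (by omega)]
      simp only [if_pos hk]
      rw [h1]
      exact hL'
    · have h1 : p2 a b n (2 * n + 2) = a ^ n * b * (a ^ n)⁻¹ * b⁻¹ := by
        unfold p2; rw [if_neg (by omega), if_neg (by omega)]
      simp only [if_neg hk]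
      rw [h1]
      exact hL

/-- letters of the walk in one row -/
def s1 (a b : G) (n j t : ℕ) : G := if t + 1 < j then a else if t + 1 = j then b⁻¹ else if t < n then a⁻¹ else b⁻¹

/-- positions of the walk in one row -/
def p1 (a b : G) (n j t : ℕ) : G :=
  if t < j then a ^ t else if t ≤ n then a ^ (j - 1) * b⁻¹ * (a ^ (t - j))⁻¹
  else a ^ (j - 1) * b⁻¹ * (a ^ (n - j))⁻¹ * b⁻¹

theorem p1_step (a b : G) (n j t : ℕ) (hj : 1 ≤ j) (hjn : j ≤ n) (ht : t < n + 1) :
    p1 a b n j (t + 1) = p1 a b n j t * s1 a b n j t := by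
  unfold p1 s1
  by_cases h1 : t + 1 < j
  · rw [if_pos h1, if_pos (by omega), if_pos h1, pow_succ]
  by_cases h2 : t + 1 = j
  · rw [if_neg (by omega), if_pos (by omega), if_pos (by omega), if_neg h1, if_pos h2]
    have h3 : t + 1 - j = 0 := by omega
    have h4 : j - 1 = t := by omega
    rw [h3, h4]
    simp
  by_cases h3 : t < n
  · rw [if_neg (by omega), if_pos (by omega), if_neg (by omega), if_pos (by omega), if_neg h1, if_neg h2, if_pos h3]
    have h4 : t + 1 - j = (t - j) + 1 := by omega
    rw [h4, pow_succ', mul_inv_rev, ← mul_assoc]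
  · have h4 : t = n := by omega
    subst h4
    rw [if_neg (by omega), if_neg (by omega), if_neg (by omega), if_pos le_rfl, if_neg h1, if_neg h2, if_neg h3]

/-- one row -/
theorem blocks_one [Finite G] {a b : G} {n j : ℕ} {I : G → ℕ} (hj : 1 ≤ j) (hjn : j ≤ n) (lt1 : ∀ x, I x < n + 1)
    (ra : ∀ x, I x + 1 < n + 1 → I (x * a) = I x + 1) (la : ∀ x, 0 < I x → I (x * a⁻¹) = I x - 1)
    (lb : ∀ x, I (x * b⁻¹) = (I x + (n + 1 - j)) % (n + 1)) (L : ℕ)
    (hL : L ≤ orderOf (a ^ (j - 1) * b⁻¹ * (a ^ (n - j))⁻¹ * b⁻¹)) : LongPerm {a, a⁻¹, b, b⁻¹} L := by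
  refine walks' (ι := Unit) (fun _ => ()) (fun x => if I x < j then I x else n + j - I x) (fun _ => n + 1)
    (fun _ t => p1 a b n j t) (fun _ t => s1 a b n j t) ?_ ?_ ?_ ?_ ?_ ?_
  · intro x
    have := lt1 x
    split_ifs <;> omega
  · intro _
    simp only [p1]
    rw [if_pos (by omega)]
    simp
  · intro _ t ht
    exact p1_step a b n j t hj hjn ht
  · intro x
    refine ⟨rfl, ?_⟩
    have h1 := lt1 x
    by_cases hI : I x < j
    · rw [if_pos hI]
      by_cases hI2 : I x + 1 < j
      · have hl : s1 a b n j (I x) = a := by unfold s1; rw [if_pos hI2]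
        rw [hl, ra x (by omega), if_pos hI2, Nat.mod_eq_of_lt (by omega)]
      · have hl : s1 a b n j (I x) = b⁻¹ := by unfold s1; rw [if_neg hI2, if_pos (by omega)]
        have h2 : I x + (n + 1 - j) = n := by omega
        rw [hl, lb x, h2, Nat.mod_eq_of_lt (by omega : n < n + 1), if_neg (by omega), Nat.mod_eq_of_lt (by omega)]
        omega
    · rw [if_neg hI]
      by_cases hI2 : I x = j
      · have hl : s1 a b n j (n + j - I x) = b⁻¹ := by
          unfold s1; rw [if_neg (by omega), if_neg (by omega), if_neg (by omega)]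
        have h2 : I x + (n + 1 - j) = n + 1 := by omega
        have h3 : n + j - I x + 1 = n + 1 := by omega
        rw [hl, lb x, h2, Nat.mod_self, if_pos (by omega), h3, Nat.mod_self]
      · have hl : s1 a b n j (n + j - I x) = a⁻¹ := by
          unfold s1; rw [if_neg (by omega), if_neg (by omega), if_pos (by omega)]
        rw [hl, la x (by omega), if_neg (by omega), Nat.mod_eq_of_lt (by omega)]
        omega
  · intro _ t _
    simp only [s1]
    split_ifs <;> simp
  · intro _
    have h1 : p1 a b n j (n + 1) = a ^ (j - 1) * b⁻¹ * (a ^ (n - j))⁻¹ * b⁻¹ := by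
      unfold p1; rw [if_neg (by omega), if_neg (by omega)]
    simp only [h1]
    exact hL

end

end Pool.Agent.Lib.MP_688fd0_co.MET.H20
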