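import Pool.Agent.Lib.MP_688fd0_co.MET.H20.Walk

/-!
Two generators, both inverting their commutator.
-/

set_option autoImplicit false

namespace Pool.Agent.Lib.MP_688fd0_co.MET.H20

open Classical

theorem exc {G : Type*} [Group G] [Finite G] (a b : G) (hgen : Subgroup.closure {a, b} = ⊤) (c : G)
    (hc : c = a * b * a⁻¹ * b⁻¹) (ha : a * c * a⁻¹ = c⁻¹) (hb : b * c * b⁻¹ = c⁻¹) (L : ℕ) (hL3 : 3 ≤ L)
    (hL : L ≤ orderOf c) : LongPerm {a, a⁻¹, b, b⁻¹} L := by
  have hne : c⁻¹ ≠ c := by
    intro h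
    have h1 : c ^ 2 = 1 := by
      rw [pow_two]
      nth_rw 1 [← h]
      exact inv_mul_cancel c
    have h2 := Nat.le_of_dvd (by norm_num) (orderOf_dvd_of_pow_eq_one h1)
    omega
  have hall : ∀ x : G, x * c * x⁻¹ = c ∨ x * c * x⁻¹ = c⁻¹ := by
    intro x
    have hx : x ∈ Subgroup.closure {a, b} := by rw [hgen]; trivial
    have hinv : ∀ y : G, y * c⁻¹ * y⁻¹ = (y * c * y⁻¹)⁻¹ := by intro y; group
    have hmul : ∀ y z : G, y * z * c * (y * z)⁻¹ = y * (z * c * z⁻¹) * y⁻¹ := by intro y z; group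
    induction hx using Subgroup.closure_induction with
    | mem x hx =>
      rcases hx with rfl | hx
      · exact Or.inr ha
      · rw [Set.mem_singleton_iff] at hx
        subst hx
        exact Or.inr hb
    | one => left; group
    | mul y z _ _ hy hz =>
      rw [hmul]
      rcases hz with hz | hz <;> rcases hy with hy | hy <;> rw [hz] <;> simp only [hinv, hy, inv_inv] <;> tauto
    | inv y _ hy =>
      rcases hy with hy | hy
      · left
        calc y⁻¹ * c * y⁻¹⁻¹ = y⁻¹ * (y * c * y⁻¹) * y := by rw [hy, inv_inv]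
          _ = c := by group
      · right
        have : c⁻¹ = y * c * y⁻¹ := hy.symm
        calc y⁻¹ * c * y⁻¹⁻¹ = (y⁻¹ * c⁻¹ * y)⁻¹ := by group
          _ = (y⁻¹ * (y * c * y⁻¹) * y)⁻¹ := by rw [hy]
          _ = c⁻¹ := by group
  have hord : L ≤ orderOf (a * b) := by
    refine hL.trans (Nat.le_of_dvd (orderOf_pos _) (orderOf_dvd_of_pow_eq_one ?_))
    set m := orderOf (a * b) with hm
    have h1 : a * (a * b) * a⁻¹ = c⁻¹ * (a * b) := by
      rw [← ha, hc]; group
    have h2 : Commute c⁻¹ (a * b) := by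
      have h3 : a * b * c * (a * b)⁻¹ = c := by
        calc a * b * c * (a * b)⁻¹ = a * (b * c * b⁻¹) * a⁻¹ := by group
          _ = (a * c * a⁻¹)⁻¹ := by rw [hb]; group
          _ = c := by rw [ha, inv_inv]
      have h4 : Commute (a * b) c := mul_inv_eq_iff_eq_mul.1 h3
      exact h4.symm.inv_left
    have h5 : a * (a * b) ^ m * a⁻¹ = c⁻¹ ^ m * (a * b) ^ m := by
      rw [← conj_pow, h1, h2.mul_pow]
    rw [hm, pow_orderOf_eq_one, mul_one, mul_one, mul_inv_cancel] at h5
    rw [inv_pow] at h5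
    exact inv_eq_one.1 h5.symm
  refine walks (ι := Unit) (fun _ => ()) (fun x => if x * c * x⁻¹ = c then 0 else 1) (fun _ => 2)
    (fun _ t => if t = 0 then 1 else if t = 1 then a else a * b) ?_ ?_ ?_ ?_ ?_ ?_
  · intro x
    split_ifs <;> norm_num
  · intro _; rfl
  · intro _; rfl
  · intro x
    have hmul : ∀ y z : G, y * z * c * (y * z)⁻¹ = y * (z * c * z⁻¹) * y⁻¹ := by intro y z; group
    by_cases h : x * c * x⁻¹ = c
    · simp only [h, if_true]
      have h1 : x * a * c * (x * a)⁻¹ = c⁻¹ := by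
        rw [hmul, ha]
        calc x * c⁻¹ * x⁻¹ = (x * c * x⁻¹)⁻¹ := by group
          _ = c⁻¹ := by rw [h]
      have h3 : x * 1⁻¹ * a = x * a := by group
      norm_num
      rw [← mul_inv_rev, h1]
      exact hne
    · have h' : x * c * x⁻¹ = c⁻¹ := (hall x).resolve_left h
      have h1 : x * b * c * (x * b)⁻¹ = c := by
        rw [hmul, hb]
        calc x * c⁻¹ * x⁻¹ = (x * c * x⁻¹)⁻¹ := by group
          _ = c := by rw [h', inv_inv]
      have h2 : x * a⁻¹ * (a * b) = x * b := by group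
      simp only [if_neg h]
      norm_num
      rw [← mul_inv_rev, h1]
  · intro _ t ht
    have h1 : t = 0 ∨ t = 1 := by omega
    rcases h1 with rfl | rfl <;> simp
  · intro _
    simpa using hord

end Pool.Agent.Lib.MP_688fd0_co.MET.H20
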