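import Pool.Agent.Lib.MP_688fd0_co.MET.H20.Exc2

/-!
The exceptional case with one row.
-/

set_option autoImplicit false

namespace Pool.Agent.Lib.MP_688fd0_co.MET.H20

open Classical

section
variable {G : Type*} [Group G]

/-- conjugation by powers of an element that inverts `c` -/
theorem conj_pow_inv {a c : G} (h : a * c * a⁻¹ = c⁻¹) (j : ℕ) :
    a ^ j * c * (a ^ j)⁻¹ = c ∨ a ^ j * c * (a ^ j)⁻¹ = c⁻¹ := by
  induction j with
  | zero => left; simp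
  | succ j ih =>
    have h1 : a ^ (j + 1) * c * (a ^ (j + 1))⁻¹ = a * (a ^ j * c * (a ^ j)⁻¹) * a⁻¹ := by
      rw [pow_succ']; group
    rw [h1]
    rcases ih with ih | ih
    · rw [ih]; exact Or.inr h
    · rw [ih]; left
      calc a * c⁻¹ * a⁻¹ = (a * c * a⁻¹)⁻¹ := by group
        _ = c := by rw [h, inv_inv]

/-- relations from the one row word: `u = 1` -/
theorem one_rel (hK : ∀ x ∈ commutator G, ∀ y ∈ commutator G, x * y = y * x) {a b c : G}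
    (hc : c = a * b * a⁻¹ * b⁻¹) {n j : ℕ} (hj : 1 ≤ j) (hjn : j ≤ n) (hz : a ^ (n + 1) = 1)
    (hy : (a ^ j)⁻¹ * b ∈ commutator G) (hw : a ^ (j - 1) * b⁻¹ * (a ^ (n - j))⁻¹ * b⁻¹ = 1) :
    a * c * a⁻¹ = c⁻¹ ∧ (b * c * b⁻¹ = c ∨ b * c * b⁻¹ = c⁻¹) := by
  obtain ⟨y, hy'⟩ : ∃ y, y = (a ^ j)⁻¹ * b := ⟨_, rfl⟩
  rw [← hy'] at hy
  have hb : b = a ^ j * y := by rw [hy']; group
  obtain ⟨k, rfl⟩ : ∃ k, j = k + 1 := ⟨j - 1, by omega⟩
  obtain ⟨i, rfl⟩ : ∃ i, n = k + 1 + i := ⟨n - (k + 1), by omega⟩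
  have h1 : k + 1 - 1 = k := rfl
  have h2 : k + 1 + i - (k + 1) = i := by omega
  rw [h1, h2] at hw
  -- `a ^ i` is inverse to `a ^ (k + 2)`
  have h3 : (a ^ i)⁻¹ = a ^ (k + 1) * a := by
    rw [← pow_succ]
    refine inv_eq_of_mul_eq_one_left ?_
    rw [← pow_add, ← hz]
    congr 1
    omega
  rw [h3, hb] at hw
  -- conjugate to `y⁻¹ * a * y⁻¹ * a⁻¹ = 1`
  have h4 : y⁻¹ * (a * y⁻¹ * a⁻¹) = 1 := by
    have h5 : a ^ k * (a ^ (k + 1) * y)⁻¹ * (a ^ (k + 1) * a) * (a ^ (k + 1) * y)⁻¹ =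
        a ^ k * (y⁻¹ * (a * y⁻¹ * a⁻¹)) * (a ^ k)⁻¹ := by
      rw [pow_succ']
      group
    rw [h5] at hw
    have h6 := congrArg (fun x => (a ^ k)⁻¹ * x * a ^ k) hw
    calc y⁻¹ * (a * y⁻¹ * a⁻¹) = (a ^ k)⁻¹ * (a ^ k * (y⁻¹ * (a * y⁻¹ * a⁻¹)) * (a ^ k)⁻¹) * a ^ k := by group
      _ = (a ^ k)⁻¹ * 1 * a ^ k := h6
      _ = 1 := by group
  have h5 : a * y * a⁻¹ = y⁻¹ := by
    have h6 : a * y⁻¹ * a⁻¹ = y := by
      rw [inv_mul_eq_one] at h4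
      exact h4.symm
    calc a * y * a⁻¹ = (a * y⁻¹ * a⁻¹)⁻¹ := by group
      _ = y⁻¹ := by rw [h6]
  have hcy : c = a ^ (k + 1) * (y⁻¹ * y⁻¹) * (a ^ (k + 1))⁻¹ := by
    have h6 : c = a ^ (k + 1) * ((a * y * a⁻¹) * y⁻¹) * (a ^ (k + 1))⁻¹ := by
      rw [hc, hb, pow_succ']; group
    rw [h6, h5]
  have hca : a * c * a⁻¹ = c⁻¹ := by
    have h7 : a * c * a⁻¹ = a ^ (k + 1) * ((a * y⁻¹ * a⁻¹) * (a * y⁻¹ * a⁻¹)) * (a ^ (k + 1))⁻¹ := by
      rw [hcy, pow_succ']; group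
    have h6 : a * y⁻¹ * a⁻¹ = y := by
      rw [inv_mul_eq_one] at h4
      exact h4.symm
    rw [h7, h6, hcy]
    simp only [mul_inv_rev, inv_inv, mul_assoc]
  have hcK : c ∈ commutator G := by rw [hc]; exact comm_mem a b
  have hcb : b * c * b⁻¹ = a ^ (k + 1) * c * (a ^ (k + 1))⁻¹ := by
    have h8 : y * c = c * y := hK y hy c hcK
    calc b * c * b⁻¹ = a ^ (k + 1) * (y * c) * y⁻¹ * (a ^ (k + 1))⁻¹ := by rw [hb]; group
      _ = a ^ (k + 1) * c * (a ^ (k + 1))⁻¹ := by rw [h8]; group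
  refine ⟨hca, ?_⟩
  rw [hcb]
  exact conj_pow_inv hca (k + 1)

theorem exc_one [Finite G] (hK : ∀ x ∈ commutator G, ∀ y ∈ commutator G, x * y = y * x) (a b c : G)
    (hgen : Subgroup.closure {a, b} = ⊤) (hc : c = a * b * a⁻¹ * b⁻¹) (n j r m L : ℕ) (hj : 1 ≤ j) (hjn : j ≤ n)
    (hr : 0 < r) (hm : 0 < m) (hz : a ^ (n + 1) ∈ commutator G) (hzr : (a ^ (n + 1)) ^ r = 1) (hbr : b ^ r = 1)
    (hy : (a ^ j)⁻¹ * b ∈ commutator G)
    (hw : (a ^ (j - 1) * b⁻¹ * (a ^ (n - j))⁻¹ * b⁻¹) ^ m = 1) (hL3 : 3 ≤ L) (hLr : r < L)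
    (hL : L * (r * m) ≤ orderOf c) : LongPerm {a, a⁻¹, b, b⁻¹} L := by
  set M := r * m with hM
  have hM0 : 0 < M := by positivity
  set f := QuotientGroup.mk' (tor hK M) with hf
  have hKQ := comm_quot (tor hK M) hK
  have hwK : a ^ (j - 1) * b⁻¹ * (a ^ (n - j))⁻¹ * b⁻¹ ∈ commutator G := by
    have hz1 := (mem_comm_iff _).1 hz
    have hy1 := (mem_comm_iff _).1 hy
    rw [mem_comm_iff]
    simp only [map_mul, map_inv, map_pow] at hz1 hy1 ⊢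
    set x := (Abelianization.of a : Abelianization G) with hx
    set y := (Abelianization.of b : Abelianization G) with hy
    rw [inv_mul_eq_one] at hy1
    rw [← hy1]
    have h1 : x ^ (j - 1) * (x ^ j)⁻¹ * (x ^ (n - j))⁻¹ * (x ^ j)⁻¹ * (x ^ (n + 1)) = 1 := by
      obtain ⟨k, rfl⟩ : ∃ k, j = k + 1 := ⟨j - 1, by omega⟩
      obtain ⟨i, rfl⟩ : ∃ i, n = k + 1 + i := ⟨n - (k + 1), by omega⟩
      have h2 : k + 1 + i - (k + 1) = i := by omega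
      rw [h2, Nat.add_sub_cancel]
      have h3 : x ^ (k + 1 + i + 1) = x ^ (k + 1) * x ^ i * x := by rw [pow_succ x (k + 1 + i), pow_add]
      rw [h3, pow_succ x k]
      have h4 : ∀ p q w : Abelianization G, p * (p * w)⁻¹ * q⁻¹ * (p * w)⁻¹ * (p * w * q * w) = 1 := by
        intro p q w
        have : p * (p * w)⁻¹ * q⁻¹ * (p * w)⁻¹ * (p * w * q * w) = p * (p * w)⁻¹ * q⁻¹ * (q * w) := by
          group
        rw [this, mul_assoc, inv_mul_cancel_left, mul_inv_rev, mul_comm w⁻¹ p⁻¹]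
        simp
      exact h4 _ _ _
    rw [hz1, mul_one] at h1
    exact h1
  have r1 : (f a) ^ (n + 1) = 1 := by
    rw [← map_pow]
    exact mk_eq_one.2 (tor_mem_of_dvd ⟨m, hM⟩ hz hzr)
  have r2 : (f a) ^ (j - 1) * (f b)⁻¹ * ((f a) ^ (n - j))⁻¹ * (f b)⁻¹ = 1 := by
    have : f (a ^ (j - 1) * b⁻¹ * (a ^ (n - j))⁻¹ * b⁻¹) = 1 :=
      mk_eq_one.2 (tor_mem_of_dvd ⟨r, by rw [hM]; ring⟩ hwK hw)
    simpa only [map_mul, map_inv, map_pow] using this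
  have hcQ : f c = f a * f b * (f a)⁻¹ * (f b)⁻¹ := by rw [hc]; simp only [map_mul, map_inv]
  have hyQ : ((f a) ^ j)⁻¹ * f b ∈ commutator (G ⧸ tor hK M) := by
    have h1 : (commutator G).map f = commutator (G ⧸ tor hK M) := by
      unfold commutator
      rw [Subgroup.map_commutator, ← MonoidHom.range_eq_map, hf, QuotientGroup.range_mk']
    rw [← h1]
    exact ⟨_, hy, by simp only [map_mul, map_inv, map_pow]⟩
  obtain ⟨e1, e2⟩ := one_rel hKQ hcQ hj hjn r1 hyQ r2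
  have hcK : c ∈ commutator G := by rw [hc]; exact comm_mem a b
  have e3 : f b * f c * (f b)⁻¹ = (f c)⁻¹ := by
    rcases e2 with e2 | e2
    · exfalso
      have h1 := pow_of_fix_right hcQ e2 (r := r) (by rw [← map_pow, hbr, map_one])
      have h2 := Nat.le_of_dvd hr (orderOf_dvd_of_pow_eq_one h1)
      have h3 := order_quot (hK := hK) hM0 hL
      rw [← hf] at h3
      omega
    · exact e2
  refine exc_quot hK a b c hgen hc M hM0 ?_ ?_ L hL3 hL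
  · rw [← mk_eq_one (N := tor hK M), ← hf]
    simp only [map_mul, map_inv]
    rw [e1, mul_inv_cancel]
  · rw [← mk_eq_one (N := tor hK M), ← hf]
    simp only [map_mul, map_inv]
    rw [e3, mul_inv_cancel]

end

end Pool.Agent.Lib.MP_688fd0_co.MET.H20
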