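import Pool.Agent.Lib.MP_688fd0_co.MET.H20.Order

/-!
The exceptional case, after division by elements of bounded exponent.
-/

set_option autoImplicit false

namespace Pool.Agent.Lib.MP_688fd0_co.MET.H20

open Classical

section
variable {G : Type*} [Group G]

theorem mem_comm_iff (x : G) : x ∈ commutator G ↔ (Abelianization.of x : Abelianization G) = 1 :=
  (QuotientGroup.eq_one_iff x).symm

theorem mk_eq_one {N : Subgroup G} [N.Normal] {x : G} : QuotientGroup.mk' N x = 1 ↔ x ∈ N :=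
  QuotientGroup.eq_one_iff x

theorem image_gens {Q : Type*} [Group Q] (f : G →* Q) (a b : G) :
    f '' {a, a⁻¹, b, b⁻¹} = {f a, (f a)⁻¹, f b, (f b)⁻¹} := by
  simp [Set.image_insert_eq]

theorem exc_quot [Finite G] (hK : ∀ x ∈ commutator G, ∀ y ∈ commutator G, x * y = y * x) (a b c : G)
    (hgen : Subgroup.closure {a, b} = ⊤) (hc : c = a * b * a⁻¹ * b⁻¹) (M : ℕ) (hM : 0 < M)
    (ha : c * (a * c * a⁻¹) ∈ tor hK M) (hb : c * (b * c * b⁻¹) ∈ tor hK M) (L : ℕ) (hL3 : 3 ≤ L)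
    (hL : L * M ≤ orderOf c) : LongPerm {a, a⁻¹, b, b⁻¹} L := by
  refine longPerm_quot (QuotientGroup.mk' (tor hK M)) ?_
  rw [image_gens]
  set f := QuotientGroup.mk' (tor hK M) with hf
  have ha' : f (c * (a * c * a⁻¹)) = 1 := mk_eq_one.2 ha
  have hb' : f (c * (b * c * b⁻¹)) = 1 := mk_eq_one.2 hb
  have hsurj : Function.Surjective f := QuotientGroup.mk'_surjective _
  refine exc (f a) (f b) ?_ (f c) ?_ ?_ ?_ L hL3 (order_quot hM hL)
  · have h1 : (Subgroup.closure {a, b}).map f = Subgroup.closure (f '' {a, b}) := MonoidHom.map_closure _ _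
    rw [hgen, Subgroup.map_top_of_surjective f hsurj, Set.image_pair] at h1
    exact h1.symm
  · rw [hc]; simp only [map_mul, map_inv]
  · rw [map_mul] at ha'
    rw [← eq_inv_of_mul_eq_one_right ha']
    simp only [map_mul, map_inv]
  · rw [map_mul] at hb'
    rw [← eq_inv_of_mul_eq_one_right hb']
    simp only [map_mul, map_inv]

/-- conjugations by `a` and `b` commute on the commutator subgroup -/
theorem conj_comm (hK : ∀ x ∈ commutator G, ∀ y ∈ commutator G, x * y = y * x) (a b : G) {k : G}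
    (hk : k ∈ commutator G) : a * (b * k * b⁻¹) * a⁻¹ = b * (a * k * a⁻¹) * b⁻¹ := by
  have h1 : b * (a * k * a⁻¹) * b⁻¹ ∈ commutator G :=
    (inferInstance : (commutator G).Normal).conj_mem _ ((inferInstance : (commutator G).Normal).conj_mem _ hk a) b
  have h2 := hK (a * b * a⁻¹ * b⁻¹) (comm_mem a b) _ h1
  calc a * (b * k * b⁻¹) * a⁻¹ = (a * b * a⁻¹ * b⁻¹) * (b * (a * k * a⁻¹) * b⁻¹) * (a * b * a⁻¹ * b⁻¹)⁻¹ := by group
    _ = b * (a * k * a⁻¹) * b⁻¹ := by rw [h2, mul_inv_cancel_right]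

/-- both three rows words have small order -/
theorem exc_three [Finite G] (hK : ∀ x ∈ commutator G, ∀ y ∈ commutator G, x * y = y * x) (a b c : G)
    (hgen : Subgroup.closure {a, b} = ⊤) (hc : c = a * b * a⁻¹ * b⁻¹) (n r m m' L : ℕ) (hn : 1 ≤ n) (hr : 0 < r)
    (hm : 0 < m) (hm' : 0 < m') (hz : a ^ (n + 1) ∈ commutator G) (hzr : (a ^ (n + 1)) ^ r = 1)
    (hw : (a ^ n * b * (a ^ (n - 1))⁻¹ * b * a ^ n * b⁻¹ * b⁻¹) ^ m = 1)
    (hw' : (a⁻¹ ^ n * b * (a⁻¹ ^ (n - 1))⁻¹ * b * a⁻¹ ^ n * b⁻¹ * b⁻¹) ^ m' = 1) (hL3 : 3 ≤ L)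
    (hL : L * ((n + 1) * (r * m * m')) ≤ orderOf c) : LongPerm {a, a⁻¹, b, b⁻¹} L := by
  have hcK : c ∈ commutator G := by rw [hc]; exact comm_mem a b
  have hconj : ∀ (g : G) {x : G}, x ∈ commutator G → g * x * g⁻¹ ∈ commutator G := fun g x hx =>
    (inferInstance : (commutator G).Normal).conj_mem x hx g
  set M := r * m * m' with hM
  have hM0 : 0 < M := by positivity
  have hz0 : (Abelianization.of a : Abelianization G) ^ n * Abelianization.of a = 1 := by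
    rw [mem_comm_iff, map_pow, pow_succ] at hz
    exact hz
  have hpn : ∀ x : Abelianization G, x ^ n * (x ^ (n - 1))⁻¹ = x := by
    intro x
    obtain ⟨k, rfl⟩ : ∃ k, n = k + 1 := ⟨n - 1, by omega⟩
    rw [Nat.add_sub_cancel, pow_succ']
    simp
  have hwK : a ^ n * b * (a ^ (n - 1))⁻¹ * b * a ^ n * b⁻¹ * b⁻¹ ∈ commutator G := by
    rw [mem_comm_iff]
    simp only [map_mul, map_inv, map_pow]
    set x := (Abelianization.of a : Abelianization G) with hx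
    set y := (Abelianization.of b : Abelianization G) with hy
    have h1 : x ^ n * y * (x ^ (n - 1))⁻¹ * y * x ^ n * y⁻¹ * y⁻¹ = (x ^ n * (x ^ (n - 1))⁻¹) * x ^ n := by
      rw [mul_right_comm (x ^ n) y, mul_assoc _ y y, mul_right_comm _ (y * y), mul_assoc _ y⁻¹ y⁻¹,
        mul_assoc _ (y * y)]
      simp [mul_assoc]
    rw [h1, hpn, mul_comm]
    exact hz0
  have hwK' : a⁻¹ ^ n * b * (a⁻¹ ^ (n - 1))⁻¹ * b * a⁻¹ ^ n * b⁻¹ * b⁻¹ ∈ commutator G := by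
    rw [mem_comm_iff]
    simp only [map_mul, map_inv, map_pow]
    set x := (Abelianization.of a : Abelianization G)⁻¹ with hx
    set y := (Abelianization.of b : Abelianization G) with hy
    have h1 : x ^ n * y * (x ^ (n - 1))⁻¹ * y * x ^ n * y⁻¹ * y⁻¹ = (x ^ n * (x ^ (n - 1))⁻¹) * x ^ n := by
      rw [mul_right_comm (x ^ n) y, mul_assoc _ y y, mul_right_comm _ (y * y), mul_assoc _ y⁻¹ y⁻¹,
        mul_assoc _ (y * y)]
      simp [mul_assoc]
    rw [h1, hpn, hx, inv_pow, ← mul_inv_rev, inv_eq_one]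
    exact hz0
  set f := QuotientGroup.mk' (tor hK M) with hf
  have hKQ := comm_quot (tor hK M) hK
  -- the relations in the quotient
  have r1 : (f a) ^ (n + 1) = 1 := by
    rw [← map_pow]
    exact mk_eq_one.2 (tor_mem_of_dvd ⟨m * m', by rw [hM, mul_assoc]⟩ hz hzr)
  have r2 : (f a) ^ n * f b * ((f a) ^ (n - 1))⁻¹ * f b * (f a) ^ n * (f b)⁻¹ * (f b)⁻¹ = 1 := by
    have : f (a ^ n * b * (a ^ (n - 1))⁻¹ * b * a ^ n * b⁻¹ * b⁻¹) = 1 :=
      mk_eq_one.2 (tor_mem_of_dvd ⟨r * m', by rw [hM]; ring⟩ hwK hw)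
    simpa only [map_mul, map_inv, map_pow] using this
  have r3 : (f a)⁻¹ ^ n * f b * ((f a)⁻¹ ^ (n - 1))⁻¹ * f b * (f a)⁻¹ ^ n * (f b)⁻¹ * (f b)⁻¹ = 1 := by
    have : f (a⁻¹ ^ n * b * (a⁻¹ ^ (n - 1))⁻¹ * b * a⁻¹ ^ n * b⁻¹ * b⁻¹) = 1 :=
      mk_eq_one.2 (tor_mem_of_dvd ⟨r * m, by rw [hM]; ring⟩ hwK' hw')
    simpa only [map_mul, map_inv, map_pow] using this
  have hcQ : f c = f a * f b * (f a)⁻¹ * (f b)⁻¹ := by rw [hc]; simp only [map_mul, map_inv]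
  have hcKQ : f c ∈ commutator (G ⧸ tor hK M) := by rw [hcQ]; exact comm_mem _ _
  have e1 := w3_rel hcQ hn r1 r2
  have e2 := w3_rel (a := (f a)⁻¹) (b := f b) (c := (f a)⁻¹ * f b * (f a)⁻¹⁻¹ * (f b)⁻¹) rfl hn
    (by rw [inv_pow, r1, inv_one]) r3
  have e3 : f b * ((f a)⁻¹ * f c * f a) * (f b)⁻¹ = f c := by
    have h1 : (f a)⁻¹ * f b * (f a)⁻¹⁻¹ * (f b)⁻¹ = ((f a)⁻¹ * f c * f a)⁻¹ := by rw [hcQ]; group
    rw [h1] at e2
    have h2 : f b * ((f a)⁻¹ * f c * f a)⁻¹ * (f b)⁻¹ = (f c)⁻¹ := by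
      have h3 := congrArg (fun x => f a * x * (f a)⁻¹) e2
      calc f b * ((f a)⁻¹ * f c * f a)⁻¹ * (f b)⁻¹
          = f a * ((f a)⁻¹ * (f b * ((f a)⁻¹ * f c * f a)⁻¹ * (f b)⁻¹) * (f a)⁻¹⁻¹) * (f a)⁻¹ := by group
        _ = f a * ((f a)⁻¹ * f c * f a)⁻¹ * (f a)⁻¹ := h3
        _ = (f c)⁻¹ := by group
    calc f b * ((f a)⁻¹ * f c * f a) * (f b)⁻¹ = (f b * ((f a)⁻¹ * f c * f a)⁻¹ * (f b)⁻¹)⁻¹ := by group
      _ = f c := by rw [h2, inv_inv]
  have hk1 : (f a)⁻¹ * f c * f a ∈ commutator (G ⧸ tor hK M) := by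
    have := (inferInstance : (commutator (G ⧸ tor hK M)).Normal).conj_mem _ hcKQ (f a)⁻¹
    simpa using this
  have e4 : f b * f c * (f b)⁻¹ = f a * f c * (f a)⁻¹ := by
    have h1 := conj_comm hKQ (f a) (f b) hk1
    rw [e3] at h1
    calc f b * f c * (f b)⁻¹ = f b * (f a * ((f a)⁻¹ * f c * f a) * (f a)⁻¹) * (f b)⁻¹ := by group
      _ = f a * f c * (f a)⁻¹ := h1.symm
  have e5 : f a * (f a * f c * (f a)⁻¹) * (f a)⁻¹ = f c := by rw [← e4]; exact e1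
  have e6 := alt_pow hKQ hcQ e5 r1
  -- back to `G`
  have g1 : (c * (a * c * a⁻¹)) ^ (n + 1) ∈ tor hK M := by
    rw [← mk_eq_one (N := tor hK M), ← hf]
    simpa only [map_mul, map_inv, map_pow] using e6
  have hd : c * (a * c * a⁻¹) ∈ commutator G := mul_mem hcK (hconj a hcK)
  have g2 : c * (a * c * a⁻¹) ∈ tor hK ((n + 1) * M) := ⟨hd, by rw [pow_mul]; exact g1.2⟩
  have g3 : (a * c * a⁻¹)⁻¹ * (b * c * b⁻¹) ∈ tor hK M := by
    rw [← mk_eq_one (N := tor hK M), ← hf]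
    simp only [map_mul, map_inv]
    rw [inv_mul_eq_one]
    exact e4.symm
  have g4 : (a * c * a⁻¹)⁻¹ * (b * c * b⁻¹) ∈ tor hK ((n + 1) * M) :=
    tor_mem_of_dvd ⟨n + 1, by ring⟩ g3.1 g3.2
  have g5 : c * (b * c * b⁻¹) ∈ tor hK ((n + 1) * M) := by
    have : c * (b * c * b⁻¹) = c * (a * c * a⁻¹) * ((a * c * a⁻¹)⁻¹ * (b * c * b⁻¹)) := by group
    rw [this]
    exact mul_mem g2 g4
  exact exc_quot hK a b c hgen hc ((n + 1) * M) (by positivity) g2 g5 L hL3 hL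

end

end Pool.Agent.Lib.MP_688fd0_co.MET.H20
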