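import Pool.Agent.Lib.MP_688fd0_co.MET.H20.Two
import Pool.Agent.Lib.MP_688fd0_co.MET.H88.Size
import Pool.Agent.Lib.MP_688fd0_co.MET.H91.Fam
import Pool.Agent.Lib.MP_688fd0_co.ASY.H83.AllTube

/-!
Assembly: groups with a large metabelian section.
-/

set_option autoImplicit false

namespace Pool.Agent.Lib.MP_688fd0_co.MET.H20

open Classical
open Pool.Agent.Lib.MP_688fd0_co.LP (Cyc)
open Pool.Agent.Lib.MP_688fd0_co.LPV (cayS)
open Pool.Agent.Lib.MP_688fd0_co.LIN
open Pool.Agent.Lib.MP_688fd0_co.ASY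

universe u

/-- the quotient by the second derived subgroup has a commutative commutator subgroup -/
theorem comm_second (G : Type u) [Group G] : ∀ x ∈ commutator (G ⧸ derivedSeries G 2),
    ∀ y ∈ commutator (G ⧸ derivedSeries G 2), x * y = y * x := by
  have h1 : (commutator G).map (QuotientGroup.mk' (derivedSeries G 2)) = commutator (G ⧸ derivedSeries G 2) := by
    unfold commutator
    rw [Subgroup.map_commutator, ← MonoidHom.range_eq_map, QuotientGroup.range_mk']
  rw [← h1]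
  rintro _ ⟨x, hx, rfl⟩ _ ⟨y, hy, rfl⟩
  rw [← map_mul, ← map_mul]
  have h2 : (y * x)⁻¹ * (x * y) ∈ derivedSeries G 2 := by
    have h3 : derivedSeries G 2 = ⁅commutator G, commutator G⁆ := by
      rw [derivedSeries_succ, derivedSeries_one]
    rw [h3]
    have h4 : (y * x)⁻¹ * (x * y) = x⁻¹ * y⁻¹ * x⁻¹⁻¹ * y⁻¹⁻¹ := by group
    rw [h4]
    exact Subgroup.commutator_mem_commutator (inv_mem hx) (inv_mem hy)
  exact (QuotientGroup.eq.2 h2).symm

/-- metabelian groups with few generators -/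
theorem longPerm_metabelian (L d : ℕ) : ∃ N : ℕ, ∀ (G : Type u) [Group G] [Finite G] (A : Set G),
    (∀ x ∈ commutator G, ∀ y ∈ commutator G, x * y = y * x) → Subgroup.closure A = ⊤ → Nat.card A ≤ d →
    N < Nat.card G → LongPerm {x | x ∈ A ∨ x⁻¹ ∈ A} L := by
  obtain ⟨r, hr⟩ : ∃ r, r = (L + 1).factorial := ⟨_, rfl⟩
  have hr0 : 0 < r := by rw [hr]; exact Nat.factorial_pos _
  obtain ⟨M, hM⟩ := twoStatement.{u} L r hr0
  obtain ⟨N, hN⟩ := MET.size.{u} d r (M + 1).factorial hr0 (Nat.factorial_pos _)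
  refine ⟨N, ?_⟩
  intro G _ _ A hK hgen hd hcard
  by_cases h1 : ∃ a ∈ A, L ≤ orderOf a
  · obtain ⟨a, ha, haL⟩ := h1
    exact longPerm_order a (Or.inl ha) haL
  push Not at h1
  have h2 : ∀ a ∈ A, a ^ r = 1 := by
    intro a ha
    rw [hr, ← orderOf_dvd_iff_pow_eq_one]
    exact Nat.dvd_factorial (orderOf_pos a) (by have := h1 a ha; omega)
  by_cases h3 : ∃ a ∈ A, ∃ b ∈ A, M ≤ orderOf (a * b * a⁻¹ * b⁻¹)
  · obtain ⟨a, ha, b, hb, hab⟩ := h3
    obtain ⟨H, hH⟩ : ∃ H : Subgroup G, H = Subgroup.closure {a, b} := ⟨_, rfl⟩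
    have haH : a ∈ H := by rw [hH]; exact Subgroup.subset_closure (by simp)
    have hbH : b ∈ H := by rw [hH]; exact Subgroup.subset_closure (by simp)
    have hgenH : Subgroup.closure {(⟨a, haH⟩ : H), ⟨b, hbH⟩} = ⊤ := by
      have h4 : (Subgroup.closure {(⟨a, haH⟩ : H), ⟨b, hbH⟩}).map H.subtype = H := by
        rw [MonoidHom.map_closure, Set.image_pair]
        exact hH.symm
      rw [eq_top_iff]
      intro x _
      have h5 : (x : G) ∈ (Subgroup.closure {(⟨a, haH⟩ : H), ⟨b, hbH⟩}).map H.subtype := by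
        rw [h4]; exact x.2
      obtain ⟨y, hy, hyx⟩ := h5
      have h6 : y = x := Subtype.ext hyx
      rwa [h6] at hy
    have hKH : ∀ x ∈ commutator H, ∀ y ∈ commutator H, x * y = y * x := by
      have h4 : ∀ x ∈ commutator H, (x : G) ∈ commutator G := by
        intro x hx
        have h5 : (x : G) ∈ (commutator H).map H.subtype := ⟨x, hx, rfl⟩
        unfold commutator at h5
        rw [Subgroup.map_commutator] at h5
        exact Subgroup.commutator_mono le_top le_top h5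
      intro x hx y hy
      ext
      exact hK _ (h4 x hx) _ (h4 y hy)
    have h7 := hM H ⟨a, haH⟩ ⟨b, hbH⟩ hKH hgenH (Subtype.ext (h2 a ha)) (Subtype.ext (h2 b hb)) (by
      rw [← Subgroup.orderOf_coe]
      exact hab)
    refine longPerm_sub H ?_ h7
    rintro x (rfl | rfl | rfl | hx)
    · exact Or.inl ha
    · right; simpa using ha
    · exact Or.inl hb
    · rw [Set.mem_singleton_iff] at hx
      subst hx
      right; simpa using hb
  · exfalso
    push Not at h3
    have h4 := hN G A hK hgen hd h2 (by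
      intro a ha b hb
      rw [← orderOf_dvd_iff_pow_eq_one]
      exact Nat.dvd_factorial (orderOf_pos _) (by have := h3 a ha b hb; omega))
    omega

/-- groups with a large metabelian section -/
theorem longPerm_section (L d : ℕ) : ∃ N : ℕ, ∀ (G : Type u) [Group G] [Finite G] (A : Set G),
    (∀ x ∈ A, x⁻¹ ∈ A) → Nat.card A ≤ d → ∀ B ⊆ A, N < (derivedSeries (Subgroup.closure B) 2).index →
    LongPerm A L := by
  obtain ⟨N, hN⟩ := longPerm_metabelian.{u} L d
  refine ⟨N, ?_⟩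
  intro G _ _ A hA hd B hBA hcard
  obtain ⟨H, hH⟩ : ∃ H : Subgroup G, H = Subgroup.closure B := ⟨_, rfl⟩
  rw [← hH] at hcard
  have hBH : ∀ x ∈ B, x ∈ H := fun x hx => by rw [hH]; exact Subgroup.subset_closure hx
  set B' : Set H := {x | (x : G) ∈ B} with hB'
  have hgenH : Subgroup.closure B' = ⊤ := by
    have h4 : (Subgroup.closure B').map H.subtype = H := by
      rw [MonoidHom.map_closure]
      have h5 : (H.subtype : H → G) '' B' = B := by
        ext x
        constructor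
        · rintro ⟨y, hy, rfl⟩; exact hy
        · intro hx; exact ⟨⟨x, hBH x hx⟩, hx, rfl⟩
      rw [h5]
      exact hH.symm
    rw [eq_top_iff]
    intro x _
    have h5 : (x : G) ∈ (Subgroup.closure B').map H.subtype := by rw [h4]; exact x.2
    obtain ⟨y, hy, hyx⟩ := h5
    have h6 : y = x := Subtype.ext hyx
    rwa [h6] at hy
  have hfin : Set.Finite A := Set.toFinite A
  have hcB' : Nat.card B' ≤ d := by
    have h5 : (H.subtype : H → G) '' B' ⊆ A := by
      rintro _ ⟨y, hy, rfl⟩; exact hBA hy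
    have h6 : Nat.card B' = Nat.card ((H.subtype : H → G) '' B') :=
      (Nat.card_image_of_injective Subtype.val_injective B').symm
    rw [h6]
    exact (Nat.card_mono hfin h5).trans hd
  refine longPerm_sub H (T := {x | x ∈ B' ∨ x⁻¹ ∈ B'}) ?_ ?_
  · rintro x (hx | hx)
    · exact hBA hx
    · have h5 := hA _ (hBA hx)
      simpa using h5
  set f := QuotientGroup.mk' (derivedSeries H 2) with hf
  refine longPerm_quot f ?_
  have h7 := hN (H ⧸ derivedSeries H 2) (f '' B') (comm_second H) (by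
    have h8 : (Subgroup.closure B').map f = Subgroup.closure (f '' B') := MonoidHom.map_closure _ _
    rw [hgenH, Subgroup.map_top_of_surjective f (QuotientGroup.mk'_surjective _)] at h8
    exact h8.symm) ((Nat.card_image_le (Set.toFinite B')).trans hcB') (by
    have h9 : (derivedSeries H 2).index = Nat.card (H ⧸ derivedSeries H 2) := rfl
    rw [← h9]
    exact hcard)
  refine LongPerm.mono h7 ?_
  rintro x (⟨y, hy, rfl⟩ | ⟨y, hy, hyx⟩)
  · exact ⟨y, Or.inl hy, rfl⟩
  · refine ⟨y⁻¹, Or.inr (by rwa [inv_inv]), ?_⟩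
    rw [map_inv, hyx, inv_inv]

/-- (1 - eps)n for connection sets that are large or have a part that generates a group with a large metabelian
quotient. -/
theorem asym (ε : ℝ) (hε : 0 < ε) : ∃ C : ℕ, ∀ (Γ : Type u) [Group Γ] [Fintype Γ] (A : Set Γ),
    (∀ x ∈ A, x⁻¹ ∈ A) → Subgroup.closure A = ⊤ →
    (C ≤ Nat.card A ∨ ∃ B ⊆ A, C ≤ (derivedSeries (Subgroup.closure B) 2).index) →
    ∃ cy, Cyc (cayS A) cy ∧ (1 - ε) * (Fintype.card Γ : ℝ) ≤ cy.length := by
  obtain ⟨d0, hd0⟩ := tube_t3vu.{u} ε hε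
  obtain ⟨ε', hε'⟩ : ∃ ε', ε' = min (ε / 2) (1 / 2) := ⟨_, rfl⟩
  have hε'0 : 0 < ε' := by rw [hε']; positivity
  have hε'1 : ε' < 1 := by rw [hε']; exact lt_of_le_of_lt (min_le_right _ _) (by norm_num)
  have hε'2 : 2 * ε' ≤ ε := by
    have : ε' ≤ ε / 2 := by rw [hε']; exact min_le_left _ _
    linarith
  obtain ⟨C1, hC1⟩ := tube_t2vu.{u} ε' hε'0 hε'1
  obtain ⟨N, hN⟩ := longPerm_section.{u} (max C1 3) d0
  refine ⟨max (d0 + 1) (N + 1), ?_⟩
  intro Γ _ _ A hA hgen h
  by_cases hd : d0 + 1 ≤ Nat.card A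
  · have h1 := H18.dg_cayS hA
    exact hd0 Γ (cayS A) (H18.vt_cayS hA hgen) ⟨1, by omega⟩
  have h2 : ∃ B ⊆ A, N < (derivedSeries (Subgroup.closure B) 2).index := by
    rcases h with h | ⟨B, hB, h⟩
    · exact absurd ((le_max_left _ _).trans h) hd
    · exact ⟨B, hB, lt_of_lt_of_le (Nat.lt_succ_self N) ((le_max_right _ _).trans h)⟩
  obtain ⟨B, hB, hBN⟩ := h2
  have h3 := hN Γ A hA (by omega) B hB hBN
  obtain ⟨F, hF1, hF2, hF3⟩ := H91.fam Γ A hA (max C1 3) (le_max_right _ _) h3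
  obtain ⟨cy, hcy, hl⟩ := hC1 Γ (cayS A) (H18.vt_cayS hA hgen) ⟨F, fun c hc =>
    ⟨(hF1 c hc).1, (le_max_left _ _).trans (hF1 c hc).2⟩, hF2, by
      have h4 : (Fintype.card Γ : ℝ) = ∑ c ∈ F, (c.length : ℝ) := by exact_mod_cast hF3
      rw [← h4]
      have h5 : (0 : ℝ) ≤ Fintype.card Γ := Nat.cast_nonneg _
      nlinarith⟩
  refine ⟨cy, hcy, le_trans ?_ hl⟩
  have h5 : (0 : ℝ) ≤ Fintype.card Γ := Nat.cast_nonneg _
  nlinarith

end Pool.Agent.Lib.MP_688fd0_co.MET.H20
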