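import Pool.Agent.Lib.MP_688fd0_co.MET.H20.Exc

/-!
Orders of the words: everything modulo the elements of `G'` of exponent `m`.
-/

set_option autoImplicit false

namespace Pool.Agent.Lib.MP_688fd0_co.MET.H20

open Classical

section
variable {G : Type*} [Group G]

/-- the elements of exponent `m` of the commutative commutator subgroup -/
def tor (hK : ∀ x ∈ commutator G, ∀ y ∈ commutator G, x * y = y * x) (m : ℕ) : Subgroup G where
  carrier := {x | x ∈ commutator G ∧ x ^ m = 1}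
  mul_mem' := by
    rintro x y ⟨hx1, hx2⟩ ⟨hy1, hy2⟩
    refine ⟨mul_mem hx1 hy1, ?_⟩
    have h : Commute x y := hK x hx1 y hy1
    rw [h.mul_pow, hx2, hy2, one_mul]
  one_mem' := ⟨one_mem _, one_pow _⟩
  inv_mem' := by
    rintro x ⟨hx1, hx2⟩
    exact ⟨inv_mem hx1, by rw [inv_pow, hx2, inv_one]⟩

variable {hK : ∀ x ∈ commutator G, ∀ y ∈ commutator G, x * y = y * x}

theorem mem_tor {m : ℕ} {x : G} : x ∈ tor hK m ↔ x ∈ commutator G ∧ x ^ m = 1 := Iff.rfl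

instance tor_normal {m : ℕ} : (tor hK m).Normal := by
  constructor
  intro x hx g
  rw [mem_tor] at hx ⊢
  refine ⟨(inferInstance : (commutator G).Normal).conj_mem x hx.1 g, ?_⟩
  rw [conj_pow, hx.2, mul_one, mul_inv_cancel]

theorem tor_mem_of_dvd {m m' : ℕ} (h : m ∣ m') {x : G} (hx : x ∈ commutator G) (hxm : x ^ m = 1) :
    x ∈ tor hK m' := by
  obtain ⟨k, rfl⟩ := h
  exact ⟨hx, by rw [pow_mul, hxm, one_pow]⟩

/-- commutator elements -/
theorem comm_mem (x y : G) : x * y * x⁻¹ * y⁻¹ ∈ commutator G :=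
  Subgroup.commutator_mem_commutator (Subgroup.mem_top x) (Subgroup.mem_top y)

/-- order in the quotient by `tor m` -/
theorem order_quot [Finite G] {m : ℕ} (hm : 0 < m) {c : G} {L : ℕ} (h : L * m ≤ orderOf c) :
    L ≤ orderOf (QuotientGroup.mk' (tor hK m) c) := by
  set k := orderOf (QuotientGroup.mk' (tor hK m) c) with hk
  have h1 : (QuotientGroup.mk' (tor hK m) c) ^ k = 1 := pow_orderOf_eq_one _
  rw [← map_pow] at h1
  have h2 : c ^ k ∈ tor hK m := by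
    rw [← QuotientGroup.ker_mk' (tor hK m)]
    exact h1
  have h3 : c ^ (k * m) = 1 := by rw [pow_mul]; exact h2.2
  have hk0 : 0 < k := orderOf_pos _
  have h4 := Nat.le_of_dvd (Nat.mul_pos hk0 hm) (orderOf_dvd_of_pow_eq_one h3)
  exact Nat.le_of_mul_le_mul_right (h.trans h4) hm

/-- the quotient has a commutative commutator subgroup -/
theorem comm_quot (N : Subgroup G) [N.Normal] (hK : ∀ x ∈ commutator G, ∀ y ∈ commutator G, x * y = y * x) :
    ∀ x ∈ commutator (G ⧸ N), ∀ y ∈ commutator (G ⧸ N), x * y = y * x := by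
  have h1 : (commutator G).map (QuotientGroup.mk' N) = commutator (G ⧸ N) := by
    unfold commutator
    rw [Subgroup.map_commutator, ← MonoidHom.range_eq_map, QuotientGroup.range_mk']
  rw [← h1]
  rintro _ ⟨x, hx, rfl⟩ _ ⟨y, hy, rfl⟩
  rw [← map_mul, ← map_mul, hK x hx y hy]

/-- the commutator with a power, trivial action -/
theorem comm_pow_of_fix {a b c : G} (hc : c = a * b * a⁻¹ * b⁻¹) (h : a * c * a⁻¹ = c) (m : ℕ) :
    a ^ m * b * (a ^ m)⁻¹ * b⁻¹ = c ^ m := by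
  induction m with
  | zero => simp
  | succ m ih =>
    have h1 : a ^ (m + 1) * b * (a ^ (m + 1))⁻¹ * b⁻¹ = a * (a ^ m * b * (a ^ m)⁻¹ * b⁻¹) * a⁻¹ * (a * b * a⁻¹ * b⁻¹) := by
      rw [pow_succ']; group
    rw [h1, ih, ← hc, ← conj_pow, h, pow_succ]

/-- a generator that fixes the commutator -/
theorem pow_of_fix_left {a b c : G} (hc : c = a * b * a⁻¹ * b⁻¹) (h : a * c * a⁻¹ = c) {r : ℕ} (har : a ^ r = 1) :
    c ^ r = 1 := by
  rw [← comm_pow_of_fix hc h r, har]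
  group

theorem pow_of_fix_right {a b c : G} (hc : c = a * b * a⁻¹ * b⁻¹) (h : b * c * b⁻¹ = c) {r : ℕ} (hbr : b ^ r = 1) :
    c ^ r = 1 := by
  have h1 : c⁻¹ = b * a * b⁻¹ * a⁻¹ := by rw [hc]; group
  have h2 : b * c⁻¹ * b⁻¹ = c⁻¹ := by
    calc b * c⁻¹ * b⁻¹ = (b * c * b⁻¹)⁻¹ := by group
      _ = c⁻¹ := by rw [h]
  have h3 := pow_of_fix_left h1 h2 hbr
  rwa [inv_pow, inv_eq_one] at h3

/-- the two rows word -/
theorem w2_mem {T : Subgroup G} (hT : T.Normal) {a b : G} {n : ℕ} (hz : a ^ (n + 1) ∈ T)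
    (hw : a ^ n * b * (a ^ n)⁻¹ * b⁻¹ ∈ T) : a * b * a⁻¹ * b⁻¹ ∈ T := by
  have h1 : a * b * a⁻¹ * b⁻¹ =
      (a * (a ^ n * b * (a ^ n)⁻¹ * b⁻¹)⁻¹ * a⁻¹) * a ^ (n + 1) * (b * (a ^ (n + 1))⁻¹ * b⁻¹) := by
    rw [pow_succ]; group
  rw [h1]
  exact T.mul_mem (T.mul_mem (hT.conj_mem _ (T.inv_mem hw) a) hz) (hT.conj_mem _ (T.inv_mem hz) b)

/-- the three rows word -/
theorem w3_rel {a b c : G} (hc : c = a * b * a⁻¹ * b⁻¹) {n : ℕ} (hn : 1 ≤ n) (hz : a ^ (n + 1) = 1)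
    (hw : a ^ n * b * (a ^ (n - 1))⁻¹ * b * a ^ n * b⁻¹ * b⁻¹ = 1) : a * (b * c * b⁻¹) * a⁻¹ = c := by
  have h1 : a ^ n = a⁻¹ := by
    rw [pow_succ] at hz
    exact eq_inv_of_mul_eq_one_left hz
  have h2 : (a ^ (n - 1))⁻¹ = a * a := by
    have h3 : a ^ (n - 1) * a = a⁻¹ := by rw [← pow_succ, Nat.sub_add_cancel hn, h1]
    have h4 : a ^ (n - 1) = a⁻¹ * a⁻¹ := eq_mul_inv_of_mul_eq h3
    rw [h4, mul_inv_rev, inv_inv]
  rw [h1, h2] at hw
  have h3 : (a⁻¹ * c * a)⁻¹ * (b * c * b⁻¹) = 1 := by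
    rw [← hw, hc]; group
  have h4 : b * c * b⁻¹ = a⁻¹ * c * a := by
    rw [inv_mul_eq_one] at h3
    exact h3.symm
  rw [h4]; group

/-- alternate sums -/
theorem alt_pow (hK : ∀ x ∈ commutator G, ∀ y ∈ commutator G, x * y = y * x) {a b c : G}
    (hc : c = a * b * a⁻¹ * b⁻¹) (h2 : a * (a * c * a⁻¹) * a⁻¹ = c) {m : ℕ} (hm : a ^ m = 1) :
    (c * (a * c * a⁻¹)) ^ m = 1 := by
  have hcK : c ∈ commutator G := by rw [hc]; exact comm_mem a b
  have hconj : ∀ (g : G) {x : G}, x ∈ commutator G → g * x * g⁻¹ ∈ commutator G := fun g x hx =>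
    (inferInstance : (commutator G).Normal).conj_mem x hx g
  have key : ∀ m : ℕ, a * (a * (a ^ m * b * (a ^ m)⁻¹ * b⁻¹) * a⁻¹) * a⁻¹ = a ^ m * b * (a ^ m)⁻¹ * b⁻¹ ∧
      (a ^ m * b * (a ^ m)⁻¹ * b⁻¹) * (a * (a ^ m * b * (a ^ m)⁻¹ * b⁻¹) * a⁻¹) = (c * (a * c * a⁻¹)) ^ m := by
    intro m
    induction m with
    | zero => simp
    | succ m ih =>
      set w := a ^ m * b * (a ^ m)⁻¹ * b⁻¹ with hw
      have hwK : w ∈ commutator G := comm_mem _ _
      have h1 : a ^ (m + 1) * b * (a ^ (m + 1))⁻¹ * b⁻¹ = a * w * a⁻¹ * c := by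
        rw [hw, hc, pow_succ']; group
      rw [h1]
      obtain ⟨ih1, ih2⟩ := ih
      constructor
      · calc a * (a * (a * w * a⁻¹ * c) * a⁻¹) * a⁻¹
            = a * (a * (a * w * a⁻¹) * a⁻¹) * a⁻¹ * (a * (a * c * a⁻¹) * a⁻¹) := by group
          _ = a * w * a⁻¹ * c := by rw [ih1, h2]
      · have h3 : a * (a * w * a⁻¹ * c) * a⁻¹ = w * (a * c * a⁻¹) := by
          calc a * (a * w * a⁻¹ * c) * a⁻¹ = (a * (a * w * a⁻¹) * a⁻¹) * (a * c * a⁻¹) := by group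
            _ = w * (a * c * a⁻¹) := by rw [ih1]
        rw [h3, pow_succ, ← ih2]
        have h4 := hK _ (hconj a hwK) _ hcK
        have h5 := hK _ (hconj a hwK) _ hwK
        calc a * w * a⁻¹ * c * (w * (a * c * a⁻¹)) = (a * w * a⁻¹) * (c * w) * (a * c * a⁻¹) := by group
          _ = (a * w * a⁻¹) * (w * c) * (a * c * a⁻¹) := by rw [hK c hcK w hwK]
          _ = ((a * w * a⁻¹) * w) * (c * (a * c * a⁻¹)) := by group
          _ = (w * (a * w * a⁻¹)) * (c * (a * c * a⁻¹)) := by rw [h5]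
  have h6 := (key m).2
  rw [hm] at h6
  rw [← h6]
  group

end

end Pool.Agent.Lib.MP_688fd0_co.MET.H20
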