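import Pool.Agent.Lib.MP_688fd0_co.MET.H20.Exc1
import Pool.Agent.Lib.MP_688fd0_co.MET.H20.Blocks

/-!
Two generators whose commutator has large order.
-/

set_option autoImplicit false

namespace Pool.Agent.Lib.MP_688fd0_co.MET.H20

open Classical

section coord
variable {Q : Type*} [CommGroup Q] [Finite Q]

theorem coord_ex {x y : Q} (hgen : Subgroup.closure {x, y} = ⊤) {s : ℕ} (hs0 : 0 < s)
    (hs : ∀ j : ℕ, y ^ j ∈ Subgroup.zpowers x ↔ s ∣ j) (g : Q) : ∃ i < orderOf x, ∃ j < s, g = x ^ i * y ^ j := by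
  have hg : g ∈ Subgroup.closure {x, y} := by rw [hgen]; trivial
  rw [Subgroup.mem_closure_pair] at hg
  obtain ⟨m, k, hmk⟩ := hg
  -- natural exponent for `y`
  obtain ⟨k', hk'⟩ : ∃ k' : ℕ, y ^ k = y ^ k' := by
    have h1 : y ^ k ∈ Submonoid.powers y := by
      rw [mem_powers_iff_mem_zpowers]
      exact ⟨k, rfl⟩
    obtain ⟨k', h2⟩ := h1
    exact ⟨k', h2.symm⟩
  have h2 : (y ^ s) ^ (k' / s) ∈ Subgroup.zpowers x := Subgroup.pow_mem _ ((hs s).2 dvd_rfl) _
  have h3 : x ^ m * (y ^ s) ^ (k' / s) ∈ Submonoid.powers x := by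
    rw [mem_powers_iff_mem_zpowers]
    exact Subgroup.mul_mem _ ⟨m, rfl⟩ h2
  obtain ⟨i, hi⟩ := h3
  simp only at hi
  refine ⟨i % orderOf x, Nat.mod_lt _ (orderOf_pos x), k' % s, Nat.mod_lt _ hs0, ?_⟩
  rw [pow_mod_orderOf, hi, ← hmk, hk', mul_assoc, ← pow_mul, ← pow_add]
  congr 2
  have := Nat.div_add_mod k' s
  omega

omit [Finite Q] in
theorem coord_uniq {x y : Q} {s : ℕ} (hs : ∀ j : ℕ, y ^ j ∈ Subgroup.zpowers x ↔ s ∣ j) :
    ∀ {i i' j j' : ℕ}, i < orderOf x → i' < orderOf x → j < s → j' < s → x ^ i * y ^ j = x ^ i' * y ^ j' →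
      i = i' ∧ j = j' := by
  have key : ∀ {i i' j j' : ℕ}, j ≤ j' → i < orderOf x → i' < orderOf x → j < s → j' < s →
      x ^ i * y ^ j = x ^ i' * y ^ j' → i = i' ∧ j = j' := by
    intro i i' j j' hjj hi hi' hj hj' h
    have h1 : y ^ (j' - j) ∈ Subgroup.zpowers x := by
      have h2 : y ^ (j' - j) = x ^ (-(i' : ℤ) + (i : ℤ)) := by
        rw [zpow_add, zpow_neg, zpow_natCast, zpow_natCast]
        obtain ⟨d, rfl⟩ := Nat.exists_eq_add_of_le hjj
        rw [Nat.add_sub_cancel_left]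
        rw [pow_add, ← mul_assoc, mul_comm (x ^ i') (y ^ j), mul_comm (x ^ i) (y ^ j), mul_assoc] at h
        have h3 := mul_left_cancel h
        rw [h3, inv_mul_cancel_left]
      rw [h2]
      exact ⟨_, rfl⟩
    have h2 := (hs _).1 h1
    have h3 : j' - j = 0 := by
      by_contra h4
      have := Nat.le_of_dvd (by omega) h2
      omega
    have h4 : j = j' := by omega
    subst h4
    exact ⟨pow_injOn_Iio_orderOf hi hi' (mul_right_cancel h), rfl⟩
  intro i i' j j' hi hi' hj hj' h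
  rcases le_total j j' with h1 | h1
  · exact key h1 hi hi' hj hj' h
  · obtain ⟨h2, h3⟩ := key h1 hi' hi hj' hj h.symm
    exact ⟨h2.symm, h3.symm⟩

end coord

section
variable {G : Type*} [Group G]

theorem closure_map_pair {Q : Type*} [Group Q] (f : G →* Q) (hf : Function.Surjective f) {a b : G}
    (hgen : Subgroup.closure {a, b} = ⊤) : Subgroup.closure {f a, f b} = ⊤ := by
  have h1 : (Subgroup.closure {a, b}).map f = Subgroup.closure (f '' {a, b}) := MonoidHom.map_closure _ _
  rw [hgen, Subgroup.map_top_of_surjective f hf, Set.image_pair] at h1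
  exact h1.symm

theorem closure_inv_pair {a b : G} (hgen : Subgroup.closure {a, b} = ⊤) : Subgroup.closure {a⁻¹, b} = ⊤ := by
  rw [eq_top_iff, ← hgen, Subgroup.closure_le]
  rintro x (rfl | hx)
  · have h1 : x⁻¹ ∈ Subgroup.closure {x⁻¹, b} := Subgroup.subset_closure (by simp)
    have := Subgroup.inv_mem _ h1
    rwa [inv_inv] at this
  · rw [Set.mem_singleton_iff] at hx
    subst hx
    exact Subgroup.subset_closure (by simp)

theorem of_surj : Function.Surjective (Abelianization.of : G →* Abelianization G) := QuotientGroup.mk'_surjective _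

theorem grid [Finite G] (a b : G) (hgen : Subgroup.closure {a, b} = ⊤) (s : ℕ) (hs0 : 0 < s)
    (hs : ∀ j : ℕ, (Abelianization.of b : Abelianization G) ^ j ∈ Subgroup.zpowers (Abelianization.of a) ↔ s ∣ j) :
    ∃ I J : G → ℕ, Grid a b (orderOf (Abelianization.of a)) s I J := by
  have hex : ∀ g : G, ∃ p : ℕ × ℕ, p.1 < orderOf (Abelianization.of a) ∧ p.2 < s ∧
      Abelianization.of g = (Abelianization.of a) ^ p.1 * (Abelianization.of b) ^ p.2 := by
    intro g
    obtain ⟨i, hi, j, hj, h⟩ := coord_ex (closure_map_pair Abelianization.of of_surj hgen) hs0 hs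
      (Abelianization.of g)
    exact ⟨(i, j), hi, hj, h⟩
  choose P hP1 hP2 hP3 using hex
  have key : ∀ (g : G) (i j : ℕ), i < orderOf (Abelianization.of a) → j < s →
      Abelianization.of g = (Abelianization.of a) ^ i * (Abelianization.of b) ^ j → (P g).1 = i ∧ (P g).2 = j := by
    intro g i j hi hj h
    exact coord_uniq hs (hP1 g) hi (hP2 g) hj ((hP3 g).symm.trans h)
  refine ⟨fun g => (P g).1, fun g => (P g).2, ?_⟩
  constructor
  · exact hP1
  · exact hP2
  · intro x hx
    refine key _ _ _ hx (hP2 x) ?_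
    rw [map_mul, hP3 x, pow_succ, mul_right_comm]
  · intro x hx
    refine key _ _ _ (orderOf_pos _) (hP2 x) ?_
    rw [map_mul, hP3 x, mul_right_comm, ← pow_succ, hx, pow_orderOf_eq_one, pow_zero]
  · intro x hx
    have h1 := hP1 x
    refine key _ _ _ (by omega) (hP2 x) ?_
    rw [map_mul, map_inv, hP3 x]
    obtain ⟨k, hk⟩ : ∃ k, (P x).1 = k + 1 := ⟨(P x).1 - 1, by omega⟩
    rw [hk, Nat.add_sub_cancel, pow_succ, mul_right_comm, mul_inv_cancel_right]
  · intro x hx
    refine key _ _ _ (hP1 x) hx ?_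
    rw [map_mul, hP3 x, pow_succ, mul_assoc]
  · intro x hx
    have h1 := hP2 x
    refine key _ _ _ (hP1 x) (by omega) ?_
    rw [map_mul, map_inv, hP3 x]
    obtain ⟨k, hk⟩ : ∃ k, (P x).2 = k + 1 := ⟨(P x).2 - 1, by omega⟩
    rw [hk, Nat.add_sub_cancel, pow_succ, mul_assoc, mul_assoc, mul_inv_cancel, mul_one]

theorem w2_order [Finite G] (hK : ∀ x ∈ commutator G, ∀ y ∈ commutator G, x * y = y * x) (a b : G) (n r L : ℕ)
    (hr : 0 < r) (hz : a ^ (n + 1) ∈ commutator G) (hzr : (a ^ (n + 1)) ^ r = 1)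
    (h : r * L ≤ orderOf (a * b * a⁻¹ * b⁻¹)) : L ≤ orderOf (a ^ n * b * (a ^ n)⁻¹ * b⁻¹) := by
  set m := orderOf (a ^ n * b * (a ^ n)⁻¹ * b⁻¹) with hm
  have hm0 : 0 < m := orderOf_pos _
  have h1 : a ^ (n + 1) ∈ tor hK (r * m) := tor_mem_of_dvd (dvd_mul_right _ _) hz hzr
  have h2 : a ^ n * b * (a ^ n)⁻¹ * b⁻¹ ∈ tor hK (r * m) :=
    tor_mem_of_dvd (dvd_mul_left _ _) (comm_mem _ _) (by rw [hm]; exact pow_orderOf_eq_one _)
  have h3 := w2_mem tor_normal h1 h2
  have h4 := Nat.le_of_dvd (Nat.mul_pos hr hm0) (orderOf_dvd_of_pow_eq_one h3.2)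
  exact Nat.le_of_mul_le_mul_left (h.trans h4) hr

theorem two [Finite G] (hK : ∀ x ∈ commutator G, ∀ y ∈ commutator G, x * y = y * x) (a b : G)
    (hgen : Subgroup.closure {a, b} = ⊤) (r L : ℕ) (hr : 0 < r) (har : a ^ r = 1) (hbr : b ^ r = 1) (hL3 : 3 ≤ L)
    (hrL : r < L) (hM : L * (r * (r * L * L)) ≤ orderOf (a * b * a⁻¹ * b⁻¹)) : LongPerm {a, a⁻¹, b, b⁻¹} L := by
  obtain ⟨c, hc⟩ : ∃ c, c = a * b * a⁻¹ * b⁻¹ := ⟨_, rfl⟩
  rw [← hc] at hM
  have hL0 : 0 < L := by omega
  have hcK : c ∈ commutator G := by rw [hc]; exact comm_mem a b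
  have hbig : ∀ k, c ^ k = 1 → 0 < k → L * (r * (r * L * L)) ≤ k := fun k hk hk0 =>
    hM.trans (Nat.le_of_dvd hk0 (orderOf_dvd_of_pow_eq_one hk))
  have hrM : r < L * (r * (r * L * L)) := by
    calc r < L := hrL
      _ = L * 1 := (mul_one L).symm
      _ ≤ L * (r * (r * L * L)) := Nat.mul_le_mul_left _ (Nat.one_le_iff_ne_zero.2 (by positivity))
  -- order of `a` modulo the commutator subgroup
  obtain ⟨n, hn⟩ : ∃ n, orderOf (Abelianization.of a) = n + 1 :=
    ⟨orderOf (Abelianization.of a) - 1, by have := orderOf_pos (Abelianization.of a); omega⟩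
  have hz : a ^ (n + 1) ∈ commutator G := by
    rw [mem_comm_iff, map_pow, ← hn]
    exact pow_orderOf_eq_one _
  have hzr : (a ^ (n + 1)) ^ r = 1 := by rw [← pow_mul, mul_comm, pow_mul, har, one_pow]
  have hnr : n + 1 ≤ r := by
    rw [← hn]
    refine Nat.le_of_dvd hr (orderOf_dvd_of_pow_eq_one ?_)
    rw [← map_pow, har, map_one]
  have hn1 : 1 ≤ n := by
    by_contra h
    have h0 : n = 0 := by omega
    subst h0
    rw [zero_add, pow_one] at hz
    have h1 : a * c * a⁻¹ = c := by rw [hK a hz c hcK, mul_inv_cancel_right]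
    have h2 := hbig r (pow_of_fix_left hc h1 har) hr
    omega
  -- index of the subgroup generated by `a`
  set s := orderOf (QuotientGroup.mk' (Subgroup.zpowers (Abelianization.of a)) (Abelianization.of b)) with hsdef
  have hs0 : 0 < s := orderOf_pos _
  have hs : ∀ j : ℕ, (Abelianization.of b : Abelianization G) ^ j ∈ Subgroup.zpowers (Abelianization.of a) ↔ s ∣ j := by
    intro j
    rw [hsdef, orderOf_dvd_iff_pow_eq_one, ← map_pow]
    exact mk_eq_one.symm
  clear_value s
  have hw2 : L ≤ orderOf (a ^ n * b * (a ^ n)⁻¹ * b⁻¹) := by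
    refine w2_order hK a b n r L hr hz hzr ?_
    rw [← hc]
    refine le_trans ?_ hM
    calc r * L = L * (r * 1) := by ring
      _ ≤ L * (r * (r * L * L)) := Nat.mul_le_mul_left _ (Nat.mul_le_mul_left _
        (Nat.one_le_iff_ne_zero.2 (by positivity)))
  obtain ⟨I, J, hgrid⟩ := grid a b hgen s hs0 hs
  rw [hn] at hgrid
  rcases Nat.even_or_odd s with hev | hodd
  · exact blocks_even hgrid hev L (by rw [Nat.add_sub_cancel]; exact hw2)
  by_cases hs3 : 3 ≤ s
  · by_cases h3 : L ≤ orderOf (a ^ n * b * (a ^ (n - 1))⁻¹ * b * a ^ n * b⁻¹ * b⁻¹)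
    · exact blocks_odd hgrid hodd hs3 (by omega) L (by rw [Nat.add_sub_cancel]; exact hw2)
        (by rw [Nat.add_sub_cancel]; exact h3)
    by_cases h4 : L ≤ orderOf (a⁻¹ ^ n * b * (a⁻¹ ^ (n - 1))⁻¹ * b * a⁻¹ ^ n * b⁻¹ * b⁻¹)
    · obtain ⟨I', J', hgrid'⟩ := grid a⁻¹ b (closure_inv_pair hgen) s hs0 (by
        intro j
        rw [map_inv, Subgroup.zpowers_inv]
        exact hs j)
      rw [map_inv, orderOf_inv, hn] at hgrid'
      have hw2' : L ≤ orderOf (a⁻¹ ^ n * b * (a⁻¹ ^ n)⁻¹ * b⁻¹) := by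
        refine w2_order hK a⁻¹ b n r L hr ?_ ?_ ?_
        · rw [inv_pow]; exact inv_mem hz
        · rw [inv_pow, inv_pow, hzr, inv_one]
        · have h5 : a⁻¹ * b * a⁻¹⁻¹ * b⁻¹ = (a⁻¹ * c * a⁻¹⁻¹)⁻¹ := by rw [hc]; group
          rw [h5, orderOf_inv]
          have h6 : orderOf (a⁻¹ * c * a⁻¹⁻¹) = orderOf c := by
            have := MulEquiv.orderOf_eq (MulAut.conj a⁻¹) c
            simpa using this
          rw [h6]
          refine le_trans ?_ hM
          calc r * L = L * (r * 1) := by ring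
            _ ≤ L * (r * (r * L * L)) := Nat.mul_le_mul_left _ (Nat.mul_le_mul_left _
              (Nat.one_le_iff_ne_zero.2 (by positivity)))
      have h7 := blocks_odd hgrid' hodd hs3 (by omega) L (by rw [Nat.add_sub_cancel]; exact hw2')
        (by rw [Nat.add_sub_cancel]; exact h4)
      refine LongPerm.mono h7 ?_
      rw [inv_inv]
      intro x hx
      simp only [Set.mem_insert_iff, Set.mem_singleton_iff] at hx ⊢
      tauto
    · push Not at h3 h4
      refine exc_three hK a b c hgen hc n r _ _ L hn1 hr (orderOf_pos _) (orderOf_pos _) hz hzr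
        (pow_orderOf_eq_one _) (pow_orderOf_eq_one _) hL3 ?_
      refine le_trans ?_ hM
      gcongr
  · -- one row
    have hs1 : s = 1 := by
      obtain ⟨q, hq⟩ := hodd
      omega
    subst hs1
    have hb1 : (Abelianization.of b : Abelianization G) ∈ Subgroup.zpowers (Abelianization.of a) := by
      have := (hs 1).2 dvd_rfl
      rwa [pow_one] at this
    rw [← mem_powers_iff_mem_zpowers] at hb1
    obtain ⟨j0, hj0⟩ := hb1
    simp only at hj0
    obtain ⟨j, hjdef⟩ : ∃ j, j = j0 % (n + 1) := ⟨_, rfl⟩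
    have hj : (Abelianization.of a : Abelianization G) ^ j = Abelianization.of b := by
      rw [hjdef, ← hn, pow_mod_orderOf, hj0]
    have hjn : j ≤ n := by
      have h1 : j0 % (n + 1) < n + 1 := Nat.mod_lt j0 (by omega)
      omega
    have hj1 : 1 ≤ j := by
      by_contra h
      have h0 : j = 0 := by omega
      rw [h0, pow_zero] at hj
      have hbK : b ∈ commutator G := (mem_comm_iff b).2 hj.symm
      have h1 : b * c * b⁻¹ = c := by rw [hK b hbK c hcK, mul_inv_cancel_right]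
      have h2 := hbig r (pow_of_fix_right hc h1 hbr) hr
      omega
    by_cases h3 : L ≤ orderOf (a ^ (j - 1) * b⁻¹ * (a ^ (n - j))⁻¹ * b⁻¹)
    · have hJ : ∀ x, J x = 0 := fun x => by have := hgrid.lt2 x; omega
      -- coordinates again, with the value
      have hex : ∀ g : G, ∃ i, i < n + 1 ∧ Abelianization.of g = (Abelianization.of a) ^ i := by
        intro g
        obtain ⟨i, hi, k, hk, h⟩ := coord_ex (closure_map_pair Abelianization.of of_surj hgen) hs0 hs
          (Abelianization.of g)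
        refine ⟨i, by rw [← hn]; exact hi, ?_⟩
        have hk0 : k = 0 := by omega
        rw [h, hk0, pow_zero, mul_one]
      choose P hP1 hP2 using hex
      have key : ∀ (g : G) (i : ℕ), i < n + 1 → Abelianization.of g = (Abelianization.of a) ^ i → P g = i := by
        intro g i hi h
        refine pow_injOn_Iio_orderOf (x := Abelianization.of a) ?_ ?_ ((hP2 g).symm.trans h)
        · rw [Set.mem_Iio, hn]; exact hP1 g
        · rw [Set.mem_Iio, hn]; exact hi
      refine blocks_one hj1 hjn hP1 ?_ ?_ ?_ L h3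
      · intro x hx
        refine key _ _ hx ?_
        rw [map_mul, hP2 x, pow_succ]
      · intro x hx
        have h1 := hP1 x
        refine key _ _ (by omega) ?_
        rw [map_mul, map_inv, hP2 x]
        obtain ⟨k, hk⟩ : ∃ k, P x = k + 1 := ⟨P x - 1, by omega⟩
        rw [hk, Nat.add_sub_cancel, pow_succ, mul_inv_cancel_right]
      · intro x
        refine key _ _ (Nat.mod_lt _ (Nat.succ_pos n)) ?_
        have h5 : (Abelianization.of a : Abelianization G) ^ ((P x + (n + 1 - j)) % (n + 1)) =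
            (Abelianization.of a) ^ (P x + (n + 1 - j)) := by
          rw [← hn, pow_mod_orderOf]
        rw [h5, map_mul, map_inv, hP2 x, pow_add, ← hj]
        congr 1
        rw [inv_eq_iff_mul_eq_one, ← pow_add]
        have h6 : j + (n + 1 - j) = n + 1 := by omega
        rw [h6, ← hn, pow_orderOf_eq_one]
    · push Not at h3
      refine exc_one hK a b c hgen hc n j r _ L hj1 hjn hr (orderOf_pos _) hz hzr hbr ?_
        (pow_orderOf_eq_one _) hL3 hrL ?_
      · rw [mem_comm_iff, map_mul, map_inv, map_pow, hj, inv_mul_cancel]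
      · refine le_trans ?_ hM
        refine Nat.mul_le_mul_left _ (Nat.mul_le_mul_left _ (h3.le.trans ?_))
        calc L = 1 * L := (one_mul L).symm
          _ ≤ r * L * L := Nat.mul_le_mul_right _ (Nat.one_le_iff_ne_zero.2 (by positivity))

end

universe u

theorem twoStatement : TwoStatement.{u} := by
  intro L r hr
  obtain ⟨L0, hL0⟩ : ∃ L0, L0 = max L (max 3 (r + 1)) := ⟨_, rfl⟩
  have h1 : L ≤ L0 := by rw [hL0]; exact le_max_left _ _
  have h2 : 3 ≤ L0 := by rw [hL0]; exact (le_max_left _ _).trans (le_max_right _ _)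
  have h3 : r + 1 ≤ L0 := by rw [hL0]; exact (le_max_right _ _).trans (le_max_right _ _)
  refine ⟨L0 * (r * (r * L0 * L0)), ?_⟩
  intro G _ _ a b hK hgen har hbr hM
  obtain ⟨σ, hσ1, hσ2⟩ := two hK a b hgen r L0 hr har hbr h2 h3 hM
  exact ⟨σ, hσ1, fun x m hm hx => h1.trans (hσ2 x m hm hx)⟩

end Pool.Agent.Lib.MP_688fd0_co.MET.H20
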