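import Pool.Agent.Lib.MP_688fd0_co.MET.Base

/-!
Permutations from closed walks; quotients, subgroups; the dihedral type case.
-/

set_option autoImplicit false

namespace Pool.Agent.Lib.MP_688fd0_co.MET.H20

open Classical

section
variable {G : Type*} [Group G]

theorem LongPerm.mono {S T : Set G} {L : ℕ} (h : LongPerm S L) (hST : S ⊆ T) : LongPerm T L := by
  obtain ⟨σ, h1, h2⟩ := h
  exact ⟨σ, fun x => hST (h1 x), h2⟩

/-- an injective map along `S` -/
theorem longPerm_of_inj [Finite G] {S : Set G} {L : ℕ} (g : G → G) (hinj : Function.Injective g)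
    (hS : ∀ x, x⁻¹ * g x ∈ S) (hL : ∀ (x : G) (m : ℕ), 0 < m → g^[m] x = x → L ≤ m) : LongPerm S L := by
  refine ⟨Equiv.ofBijective g (Finite.injective_iff_bijective.1 hinj), hS, ?_⟩
  intro x m hm h
  refine hL x m hm ?_
  have h1 : (⇑(Equiv.ofBijective g (Finite.injective_iff_bijective.1 hinj)))^[m] x = x := by
    rw [← Equiv.Perm.coe_pow]; exact h
  exact h1

/-- one generator of large order -/
theorem longPerm_order [Finite G] {S : Set G} {L : ℕ} (a : G) (ha : a ∈ S) (h : L ≤ orderOf a) : LongPerm S L := by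
  refine longPerm_of_inj (fun x => x * a) (fun x y hxy => by simpa using hxy) (fun x => by simpa using ha) ?_
  intro x m hm hx
  have h1 : ∀ (m : ℕ), (fun x => x * a)^[m] x = x * a ^ m := by
    intro m
    induction m with
    | zero => simp
    | succ m ih => rw [Function.iterate_succ_apply', ih, pow_succ, mul_assoc]
  rw [h1 m] at hx
  have h2 : a ^ m = 1 := by simpa using hx
  exact h.trans (Nat.le_of_dvd hm (orderOf_dvd_of_pow_eq_one h2))

/-- closed walks -/
theorem walks [Finite G] {S : Set G} {L : ℕ} {ι : Type*} (κ : G → ι) (t : G → ℕ) (ℓ : ι → ℕ) (p : ι → ℕ → G)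
    (hlt : ∀ x, t x < ℓ (κ x)) (hp0 : ∀ k, p k 0 = 1)
    (hκ : ∀ x, κ (x * (p (κ x) (t x))⁻¹ * p (κ x) (t x + 1)) = κ x)
    (ht : ∀ x, t (x * (p (κ x) (t x))⁻¹ * p (κ x) (t x + 1)) = (t x + 1) % ℓ (κ x))
    (hS : ∀ k t, t < ℓ k → (p k t)⁻¹ * p k (t + 1) ∈ S) (hL : ∀ k, L ≤ orderOf (p k (ℓ k))) : LongPerm S L := by
  set g : G → G := fun x => x * (p (κ x) (t x))⁻¹ * p (κ x) (t x + 1) with hg
  have hgx : ∀ x, g x = x * (p (κ x) (t x))⁻¹ * p (κ x) (t x + 1) := fun x => rfl
  have hκ' : ∀ x, κ (g x) = κ x := hκ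
  have ht' : ∀ x, t (g x) = (t x + 1) % ℓ (κ x) := ht
  clear_value g
  refine longPerm_of_inj g ?_ ?_ ?_
  · intro x y hxy
    have h1 : κ x = κ y := by rw [← hκ' x, ← hκ' y, hxy]
    have h2 : (t x + 1) % ℓ (κ x) = (t y + 1) % ℓ (κ x) := by
      rw [← ht' x, hxy, ht' y, h1]
    have h3 : t x = t y := by
      have h4 := hlt x
      have h5 := hlt y
      rw [← h1] at h5
      rcases Nat.lt_or_ge (t x + 1) (ℓ (κ x)) with h6 | h6
      · rcases Nat.lt_or_ge (t y + 1) (ℓ (κ x)) with h7 | h7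
        · rw [Nat.mod_eq_of_lt h6, Nat.mod_eq_of_lt h7] at h2
          omega
        · have h8 : t y + 1 = ℓ (κ x) := by omega
          rw [Nat.mod_eq_of_lt h6, h8, Nat.mod_self] at h2
          omega
      · have h9 : t x + 1 = ℓ (κ x) := by omega
        rcases Nat.lt_or_ge (t y + 1) (ℓ (κ x)) with h7 | h7
        · rw [Nat.mod_eq_of_lt h7, h9, Nat.mod_self] at h2
          omega
        · omega
    rw [hgx x, hgx y, h1, h3] at hxy
    simpa using hxy
  · intro x
    rw [hgx x, ← mul_assoc, ← mul_assoc, inv_mul_cancel, one_mul]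
    exact hS _ _ (hlt x)
  · intro x m hm hx
    have key : ∀ m : ℕ, κ (g^[m] x) = κ x ∧ t (g^[m] x) = (t x + m) % ℓ (κ x) ∧
        g^[m] x * (p (κ x) (t (g^[m] x)))⁻¹ = x * (p (κ x) (t x))⁻¹ * p (κ x) (ℓ (κ x)) ^ ((t x + m) / ℓ (κ x)) := by
      intro m
      induction m with
      | zero =>
        have h1 := hlt x
        simp [Nat.mod_eq_of_lt h1, Nat.div_eq_of_lt h1]
      | succ m ih =>
        obtain ⟨ih1, ih2, ih3⟩ := ih
        rw [Function.iterate_succ_apply']
        set y := g^[m] x with hy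
        have hℓ : 0 < ℓ (κ x) := lt_of_le_of_lt (Nat.zero_le _) (hlt x)
        have hty : t y < ℓ (κ x) := by rw [← ih1]; exact hlt y
        refine ⟨by rw [hκ' y, ih1], ?_, ?_⟩
        · rw [ht' y, ih1, ih2, Nat.mod_add_mod, add_assoc]
        · rw [ht' y, hgx y, ih1]
          rcases Nat.lt_or_ge (t y + 1) (ℓ (κ x)) with h6 | h6
          · rw [Nat.mod_eq_of_lt h6, mul_inv_cancel_right, ih3]
            congr 2
            rw [ih2] at h6
            have h7 := Nat.div_add_mod (t x + m) (ℓ (κ x))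
            have h8 : t x + (m + 1) = ((t x + m) % ℓ (κ x) + 1) + ℓ (κ x) * ((t x + m) / ℓ (κ x)) := by omega
            rw [h8, Nat.add_mul_div_left _ _ hℓ, Nat.div_eq_of_lt h6, zero_add]
          · have h9 : t y + 1 = ℓ (κ x) := by omega
            rw [h9, Nat.mod_self, hp0, inv_one, mul_one, ih3, mul_assoc, ← pow_succ]
            congr 2
            rw [ih2] at h9
            have h7 := Nat.div_add_mod (t x + m) (ℓ (κ x))
            have h8 : t x + (m + 1) = 0 + ℓ (κ x) * ((t x + m) / ℓ (κ x) + 1) := by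
              rw [Nat.mul_add]; omega
            rw [h8, Nat.add_mul_div_left _ _ hℓ]
            simp
    obtain ⟨_, h2, h3⟩ := key m
    rw [hx] at h2 h3
    have hℓ : 0 < ℓ (κ x) := lt_of_le_of_lt (Nat.zero_le _) (hlt x)
    have h4 : p (κ x) (ℓ (κ x)) ^ ((t x + m) / ℓ (κ x)) = 1 := by
      have := h3.symm
      rwa [mul_eq_left] at this
    have h5 : 0 < (t x + m) / ℓ (κ x) := by
      rw [Nat.div_pos_iff]
      refine ⟨hℓ, ?_⟩
      by_contra h6
      push Not at h6
      rw [Nat.mod_eq_of_lt h6] at h2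
      omega
    have h6 := Nat.le_of_dvd h5 (orderOf_dvd_of_pow_eq_one h4)
    have h7 := (hL (κ x)).trans h6
    have h8 := Nat.div_add_mod (t x + m) (ℓ (κ x))
    rw [← h2] at h8
    have h9 : ℓ (κ x) * ((t x + m) / ℓ (κ x)) = m := by omega
    calc L ≤ (t x + m) / ℓ (κ x) := h7
      _ ≤ ℓ (κ x) * ((t x + m) / ℓ (κ x)) := Nat.le_mul_of_pos_left _ hℓ
      _ = m := h9

/-- quotients -/
theorem longPerm_quot [Finite G] {Q : Type*} [Group Q] (f : G →* Q) {S : Set G} {L : ℕ}
    (h : LongPerm (f '' S) L) : LongPerm S L := by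
  obtain ⟨τ, h1, h2⟩ := h
  choose s hs1 hs2 using h1
  have hτ : ∀ x : G, f (x * s (f x)) = τ (f x) := by
    intro x
    rw [map_mul, hs2 (f x), mul_inv_cancel_left]
  have hit : ∀ (m : ℕ) (x : G), f ((fun x => x * s (f x))^[m] x) = (τ ^ m) (f x) := by
    intro m x
    induction m with
    | zero => simp
    | succ m ih =>
      rw [Function.iterate_succ_apply', hτ, ih, pow_succ', Equiv.Perm.mul_apply]
  refine longPerm_of_inj (fun x => x * s (f x)) ?_ (fun x => by simpa using hs1 (f x)) ?_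
  · intro x y hxy
    simp only at hxy
    have h3 : f x = f y := τ.injective (by rw [← hτ x, ← hτ y, hxy])
    rw [h3] at hxy
    simpa using hxy
  · intro x m hm hx
    refine h2 (f x) m hm ?_
    rw [← hit m x, hx]

/-- subgroups -/
theorem longPerm_sub [Finite G] (H : Subgroup G) {S : Set G} {T : Set H} {L : ℕ} (hTS : ∀ x ∈ T, (x : G) ∈ S)
    (h : LongPerm T L) : LongPerm S L := by
  obtain ⟨τ, h1, h2⟩ := h
  -- representatives of the left cosets
  set q : G → G := fun x => ((x : G ⧸ H).out : G) with hq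
  have hqH : ∀ x, (q x)⁻¹ * x ∈ H := by
    intro x
    rw [← QuotientGroup.eq]
    simp [hq]
  have hqm : ∀ (x : G) (y : H), q (x * y) = q x := by
    intro x y
    simp only [hq]
    congr 1
    rw [QuotientGroup.eq]
    simp
  clear_value q
  set g : G → G := fun x => q x * (τ ⟨(q x)⁻¹ * x, hqH x⟩ : H) with hg
  have hqq : ∀ x, q (q x) = q x := by
    intro x
    have h3 : q x = x * ((⟨(q x)⁻¹ * x, hqH x⟩ : H)⁻¹ : H) := by simp
    conv_lhs => rw [h3]
    rw [hqm]
  have hqg : ∀ x, q (g x) = q x := by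
    intro x
    rw [hg]
    simp only
    rw [hqm, hqq]
  have hgin : ∀ x, (⟨(q (g x))⁻¹ * g x, hqH (g x)⟩ : H) = τ ⟨(q x)⁻¹ * x, hqH x⟩ := by
    intro x
    ext
    simp only [hqg x]
    simp [hg]
  have hit : ∀ (m : ℕ) (x : G), q (g^[m] x) = q x ∧
      (⟨(q (g^[m] x))⁻¹ * g^[m] x, hqH (g^[m] x)⟩ : H) = (τ ^ m) ⟨(q x)⁻¹ * x, hqH x⟩ := by
    intro m x
    induction m with
    | zero => simp
    | succ m ih =>
      constructor
      · rw [Function.iterate_succ_apply', hqg, ih.1]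
      · have h5 := hgin (g^[m] x)
        rw [ih.2] at h5
        rw [pow_succ', Equiv.Perm.mul_apply, ← h5]
        simp only [Function.iterate_succ_apply']
  refine longPerm_of_inj g ?_ ?_ ?_
  · intro x y hxy
    have h3 : q x = q y := by rw [← hqg x, ← hqg y, hxy]
    have h4 : τ ⟨(q x)⁻¹ * x, hqH x⟩ = τ ⟨(q y)⁻¹ * y, hqH y⟩ := by
      rw [← hgin x, ← hgin y]
      simp only [hxy]
    have h5 := τ.injective h4
    have h6 : (q x)⁻¹ * x = (q y)⁻¹ * y := congrArg (fun z : H => (z : G)) h5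
    rw [h3] at h6
    exact mul_left_cancel h6
  · intro x
    have h3 := hTS _ (h1 ⟨(q x)⁻¹ * x, hqH x⟩)
    have h4 : x⁻¹ * g x = (((⟨(q x)⁻¹ * x, hqH x⟩ : H)⁻¹ * τ ⟨(q x)⁻¹ * x, hqH x⟩ : H) : G) := by
      rw [Subgroup.coe_mul, Subgroup.coe_inv, hg]
      simp only [mul_inv_rev, inv_inv]
      group
    rw [h4]
    exact h3
  · intro x m hm hx
    have h3 := (hit m x).2
    refine h2 _ m hm (h3.symm.trans ?_)
    simp only [hx]

end

end Pool.Agent.Lib.MP_688fd0_co.MET.H20
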